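import Pool.Agent.Helper497.SE.Base

set_option autoImplicit false

namespace Pool.Agent.Helper497.SE

open Finset

variable {N k p : ℕ}


theorem words_finite (T : ℕ) : {h : Fin p → FreeGroup (Fin N) | ∀ α, (h α).norm ≤ T}.Finite := by
  have h1 : {g : FreeGroup (Fin N) | g.norm ≤ T}.Finite := by
    refine ((List.finite_length_le (Fin N × Bool) T).image FreeGroup.mk).subset ?_
    intro g hg
    exact ⟨g.toWord, hg, FreeGroup.mk_toWord⟩
  exact Set.Finite.pi' (fun _ : Fin p => h1)

end Pool.Agent.Helper497.SE
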