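import Pool.Agent.Helper497.SE.Fin
import Pool.Agent.Helper497.SE.WFin
import Pool.Agent.Helper423.PW.Defs

set_option autoImplicit false

/-! Adapter of the slide entropy theorem `se_fin` to lists of strands (module M4). -/

namespace PW.SEL

open Finset

variable {N : ℕ}

noncomputable def eps (N : ℕ) : Z N ≃ Fin (2 * N) :=
  Fintype.equivFinOfCardEq (by simp [mul_comm])

open Pool.Agent.Helper497 in
/-- the strands of a list -/
noncomputable def strOf (str : List (Z N × FN N × Z N)) : SE.Str N str.length (2 * N) where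
  a := fun s => eps N (str.get s).1
  g := fun s => (str.get s).2.1
  b := fun s => eps N (str.get s).2.2

noncomputable def allowOf (Lg : Finset (Fin N)) (π : Z N → ℕ) (i : Fin (2 * N)) : Finset (Z N) :=
  if ((eps N).symm i).1 ∈ Lg then ∅ else univ.filter (fun x => x.1 ∈ Lg ∧ π x = π ((eps N).symm i))

theorem fS_eq (str : List (Z N × FN N × Z N)) (h : Z N → FN N) :
    fS str h = (strOf str).f (h ∘ (eps N).symm) := by
  unfold fS Pool.Agent.Helper497.SE.Str.f
  rw [← List.sum_ofFn]
  congr 1
  apply List.ext_getElem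
  · simp
  · intro i h1 h2
    simp [strOf, Pool.Agent.Helper497.SE.Str.e, Pool.Agent.Helper497.SE.Str.src,
      Pool.Agent.Helper497.SE.Str.elt, Pool.Agent.Helper497.SE.Str.tgt]

theorem countP_fin {α : Type} (l : List α) (P : α → Prop) [DecidablePred P] :
    l.countP (fun a => P a) = (univ.filter (fun s : Fin l.length => P (l.get s))).card := by
  classical
  induction l with
  | nil => simp
  | cons a l ih =>
    rw [List.countP_cons, ih]
    have : (univ.filter (fun s : Fin (a :: l).length => P ((a :: l).get s))).card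
        = (univ.filter (fun s : Fin (l.length + 1) => P ((a :: l).get s))).card := rfl
    rw [this, Fin.card_filter_univ_succ]
    simp only [List.get_cons_zero]
    by_cases hp : P a
    · simp [hp]
    · simp [hp]

theorem leav_eq (str : List (Z N × FN N × Z N)) (h : Z N → FN N) (U : Finset (Z N)) :
    leav str h U = ((strOf str).leave (h ∘ (eps N).symm) (U.map (eps N).toEmbedding)).card := by
  classical
  unfold leav
  rw [countP_fin, countP_fin]
  unfold Pool.Agent.Helper497.SE.Str.leave
  have hsplit : ∀ (Q : Fin str.length × Bool → Prop) [DecidablePred Q],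
      (univ.filter Q).card = (univ.filter (fun s : Fin str.length => Q (s, true))).card +
        (univ.filter (fun s : Fin str.length => Q (s, false))).card := by
    intro Q _
    simp only [Finset.card_filter]
    rw [Fintype.sum_prod_type]
    simp only [Fintype.sum_bool]
    rw [Finset.sum_add_distrib]
  rw [hsplit]
  congr 1
  · congr 1
    ext s
    simp [strOf, Pool.Agent.Helper497.SE.Str.e, Pool.Agent.Helper497.SE.Str.src,
      Pool.Agent.Helper497.SE.Str.elt, Pool.Agent.Helper497.SE.Str.tgt]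
  · congr 1
    ext s
    have hinv : ((h (str.get s).2.2)⁻¹ * ((str.get s).2.1)⁻¹ * h (str.get s).1 = 1) ↔
        ((h (str.get s).1)⁻¹ * (str.get s).2.1 * h (str.get s).2.2 = 1) := by
      rw [← inv_eq_one]
      simp [mul_assoc]
    simp only [List.get_eq_getElem] at hinv
    simp [strOf, Pool.Agent.Helper497.SE.Str.e, Pool.Agent.Helper497.SE.Str.src,
      Pool.Agent.Helper497.SE.Str.elt, Pool.Agent.Helper497.SE.Str.tgt, hinv]

theorem allowed_iff (Lg : Finset (Fin N)) (π : Z N → ℕ) (h : Z N → FN N) :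
    Pool.Agent.Helper497.SE.Allowed (allowOf Lg π) (h ∘ (eps N).symm) ↔ Adm Lg π h := by
  unfold Pool.Agent.Helper497.SE.Allowed Adm allowOf
  constructor
  · intro H α
    have H' := H (eps N α)
    simp only [Function.comp, Equiv.symm_apply_apply] at H'
    by_cases hα : α.1 ∈ Lg
    · simp only [hα, if_true, Finset.notMem_empty] at H'
      have hw : (h α).toWord = [] := List.eq_nil_iff_forall_not_mem.mpr (fun x hx => H' x hx)
      have h1 : h α = 1 := FreeGroup.toWord_eq_nil_iff.mp hw
      refine ⟨fun _ => h1, ?_⟩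
      intro x hx
      rw [hw] at hx
      simp at hx
    · simp only [hα, if_false, Finset.mem_filter, Finset.mem_univ, true_and] at H'
      exact ⟨fun hh => absurd hh hα, H'⟩
  · intro H i x hx
    simp only [Function.comp] at hx
    by_cases hα : ((eps N).symm i).1 ∈ Lg
    · rw [(H _).1 hα] at hx
      simp at hx
    · simp only [hα, if_false, Finset.mem_filter, Finset.mem_univ, true_and]
      exact (H _).2 x hx

theorem map_symm (U : Finset (Fin (2 * N))) :
    (U.map (eps N).symm.toEmbedding).map (eps N).toEmbedding = U := by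
  ext i
  simp

theorem one_comp : ((fun _ => 1 : Z N → FN N) ∘ (eps N).symm) = fun _ => 1 := rfl

theorem min_of (Lg : Finset (Fin N)) (π : Z N → ℕ) (str : List (Z N × FN N × Z N))
    (hMin : ∀ y : Z N, y.1 ∈ Lg → ∀ U : Finset (Z N), (∀ α ∈ U, α.1 ∉ Lg ∧ π α = π y) →
      fS str (fun _ => 1) ≤ fS str (fun α => if α ∈ U then lt y else 1)) :
    (strOf str).Min (allowOf Lg π) := by
  intro U y hU
  by_cases hne : U.Nonempty
  · obtain ⟨i0, hi0⟩ := hne
    have key : ∀ i ∈ U, ((eps N).symm i).1 ∉ Lg ∧ y.1 ∈ Lg ∧ π y = π ((eps N).symm i) := by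
      intro i hi
      have := hU i hi
      unfold allowOf at this
      by_cases hα : ((eps N).symm i).1 ∈ Lg
      · simp [hα] at this
      · simp only [hα, if_false, Finset.mem_filter, Finset.mem_univ, true_and] at this
        exact ⟨hα, this.1, this.2⟩
    have h1 := hMin y (key i0 hi0).2.1 (U.map (eps N).symm.toEmbedding) (by
      intro α hα
      simp only [Finset.mem_map, Equiv.coe_toEmbedding] at hα
      obtain ⟨i, hi, rfl⟩ := hα
      exact ⟨(key i hi).1, (key i hi).2.2.symm⟩)
    rw [fS_eq, fS_eq] at h1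
    have h2 : ((fun α => if α ∈ U.map (eps N).symm.toEmbedding then lt y else 1 : Z N → FN N) ∘
        (eps N).symm) = fun i => if i ∈ U then Pool.Agent.Helper497.SE.lt y else 1 := by
      funext i
      simp only [Function.comp, Finset.mem_map, Equiv.coe_toEmbedding,
        EmbeddingLike.apply_eq_iff_eq, exists_eq_right]
      rfl
    rw [h2] at h1
    exact h1
  · rw [Finset.not_nonempty_iff_eq_empty] at hne
    subst hne
    simp

theorem np_of (Lg : Finset (Fin N)) (π : Z N → ℕ) (str : List (Z N × FN N × Z N))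
    (hNP : ∀ h, Adm Lg π h → ∀ U : Finset (Z N), (∀ α ∈ U, α.1 ∉ Lg) → leav str h U ≠ 1) :
    (strOf str).NP (allowOf Lg π) := by
  intro c hc U hU
  have h0 : c = (c ∘ (eps N)) ∘ (eps N).symm := by
    funext i
    simp
  rw [h0] at hc ⊢
  rw [allowed_iff] at hc
  have h1 := hNP _ hc (U.map (eps N).symm.toEmbedding) (by
    intro α hα
    simp only [Finset.mem_map, Equiv.coe_toEmbedding] at hα
    obtain ⟨i, hi, rfl⟩ := hα
    obtain ⟨y, hy⟩ := hU
    intro hα
    have := hy i hi
    unfold allowOf at this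
    simp [hα] at this)
  rw [leav_eq, map_symm] at h1
  exact h1

theorem nrm_of (Lg : Finset (Fin N)) (π : Z N → ℕ) (str : List (Z N × FN N × Z N))
    (h : Z N → FN N) (hA : Adm Lg π h)
    (hn : ∀ U : Finset (Z N), U.Nonempty → (∀ α ∈ U, α.1 ∉ Lg) →
      leav str (fun _ => 1) U = 0 → ∃ α ∈ U, h α = 1) :
    (strOf str).Nrm (h ∘ (eps N).symm) := by
  intro U hne hU
  by_cases hs : ∃ i ∈ U, ((eps N).symm i).1 ∈ Lg
  · obtain ⟨i, hi, hL⟩ := hs
    exact ⟨i, hi, (hA _).1 hL⟩
  · push Not at hs
    obtain ⟨α, hα, h1⟩ := hn (U.map (eps N).symm.toEmbedding) (by simpa using hne) (by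
      intro α hα
      simp only [Finset.mem_map, Equiv.coe_toEmbedding] at hα
      obtain ⟨i, hi, rfl⟩ := hα
      exact hs i hi) (by
      rw [leav_eq, map_symm, Finset.card_eq_zero]
      unfold Pool.Agent.Helper497.SE.Str.leave
      rw [Finset.filter_eq_empty_iff]
      intro d _ hd
      obtain ⟨h2, h3⟩ := hU d hd.1
      apply hd.2
      refine ⟨h2, ?_⟩
      unfold Pool.Agent.Helper497.SE.Str.e
      rw [h3]
      simp)
    simp only [Finset.mem_map, Equiv.coe_toEmbedding] at hα
    obtain ⟨i, hi, rfl⟩ := hα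
    exact ⟨i, hi, h1⟩

end PW.SEL

namespace PW

open Finset

variable {N : ℕ}

/-- slide entropy for lists of strands -/
theorem se_list' (Lg : Finset (Fin N)) (π : Z N → ℕ) (hl : Loops Lg π) (hne : Lg.Nonempty)
    (str : List (Z N × FN N × Z N))
    (hMin : ∀ y : Z N, y.1 ∈ Lg → ∀ U : Finset (Z N), (∀ α ∈ U, α.1 ∉ Lg ∧ π α = π y) →
      fS str (fun _ => 1) ≤ fS str (fun α => if α ∈ U then lt y else 1))
    (hNP : ∀ h, Adm Lg π h → ∀ U : Finset (Z N), (∀ α ∈ U, α.1 ∉ Lg) → leav str h U ≠ 1)
    (T Δ : ℕ) (H : Set (Z N → FN N))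
    (hH : ∀ h ∈ H, Adm Lg π h ∧ (∀ α, (h α).norm ≤ T) ∧
      (∀ U : Finset (Z N), U.Nonempty → (∀ α ∈ U, α.1 ∉ Lg) →
        leav str (fun _ => 1) U = 0 → ∃ α ∈ U, h α = 1) ∧
      fS str h ≤ fS str (fun _ => 1) + Δ) :
    H.Finite ∧ H.ncard ≤ ((T + 1) * (2 * str.length + 2 * N + 1) ^ (2 * N)) ^
      ((2 * N * (2 * N) + 1) * (2 * (2 * N)) + 2 * N * (2 * N) + 1) *
      (2 ^ (2 * N) * (2 * Lg.card - 1) ^ (Δ / 2)) := by
  classical
  let F : (Z N → FN N) → (Fin (2 * N) → FN N) := fun h => h ∘ (SEL.eps N).symm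
  have hFinj : Function.Injective F := by
    intro h h' hh
    funext α
    have := congrFun hh (SEL.eps N α)
    simpa [F] using this
  have himg : (F '' H).Finite := by
    refine (Pool.Agent.Helper497.SE.words_finite (N := N) (p := 2 * N) T).subset ?_
    rintro _ ⟨h, hh, rfl⟩ i
    exact (hH h hh).2.1 _
  have hfin : H.Finite := Set.Finite.of_finite_image himg hFinj.injOn
  refine ⟨hfin, ?_⟩
  have hcard : 0 < Lg.card := hne.card_pos
  have hse := Pool.Agent.Helper497.SE.se_fin (SEL.strOf str) (SEL.allowOf Lg π)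
    (2 * Lg.card - 1) (by omega) (by
      intro i x hx
      unfold SEL.allowOf at hx ⊢
      by_cases hα : ((SEL.eps N).symm i).1 ∈ Lg
      · simp [hα] at hx
      · simp only [hα, if_false, Finset.mem_filter, Finset.mem_univ, true_and] at hx ⊢
        refine ⟨hx.1, ?_⟩
        rw [← hx.2]
        have := hl x.1 hx.1
        rcases x with ⟨j, b⟩
        cases b
        · exact this
        · exact this.symm) (by
      intro i
      unfold SEL.allowOf
      by_cases hα : ((SEL.eps N).symm i).1 ∈ Lg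
      · simp [hα]
      · simp only [hα, if_false]
        have : (univ.filter (fun x : Z N => x.1 ∈ Lg ∧ π x = π ((SEL.eps N).symm i))) ⊆
            Lg ×ˢ (univ : Finset Bool) := by
          intro x hx
          simp only [Finset.mem_filter, Finset.mem_univ, true_and] at hx
          simp [hx.1]
        have h2 := Finset.card_le_card this
        rw [Finset.card_product] at h2
        simp only [Finset.card_univ, Fintype.card_bool] at h2
        omega)
    (SEL.min_of Lg π str hMin) (SEL.np_of Lg π str hNP) T Δ (hfin.toFinset.image F)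
    (by
      intro c hc
      simp only [Finset.mem_image, Set.Finite.mem_toFinset] at hc
      obtain ⟨h, hh, rfl⟩ := hc
      exact (SEL.allowed_iff Lg π h).2 (hH h hh).1)
    (by
      intro c hc i
      simp only [Finset.mem_image, Set.Finite.mem_toFinset] at hc
      obtain ⟨h, hh, rfl⟩ := hc
      exact (hH h hh).2.1 _)
    (by
      intro c hc
      simp only [Finset.mem_image, Set.Finite.mem_toFinset] at hc
      obtain ⟨h, hh, rfl⟩ := hc
      exact SEL.nrm_of Lg π str h (hH h hh).1 (hH h hh).2.2.1)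
    (by
      intro c hc
      simp only [Finset.mem_image, Set.Finite.mem_toFinset] at hc
      obtain ⟨h, hh, rfl⟩ := hc
      have := (hH h hh).2.2.2
      rw [SEL.fS_eq, SEL.fS_eq] at this
      exact this)
  rw [Finset.card_image_of_injective _ hFinj] at hse
  rw [Set.ncard_eq_toFinset_card H hfin]
  exact hse

/-- slide entropy for lists of strands (the form used by module M4) -/
theorem se_list (Lg : Finset (Fin N)) (π : Z N → ℕ) (hl : Loops Lg π) (hne : Lg.Nonempty)
    (str : List (Z N × FN N × Z N))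
    (_hstr : ∀ s ∈ str, s.1.1 ∉ Lg ∧ s.2.2.1 ∉ Lg ∧ π s.1 = π s.2.2 ∧
      ∀ x ∈ s.2.1.toWord, x.1 ∈ Lg ∧ π x = π s.1)
    (hMin : ∀ y : Z N, y.1 ∈ Lg → ∀ U : Finset (Z N), (∀ α ∈ U, α.1 ∉ Lg ∧ π α = π y) →
      fS str (fun _ => 1) ≤ fS str (fun α => if α ∈ U then lt y else 1))
    (hNP : ∀ h, Adm Lg π h → ∀ U : Finset (Z N), (∀ α ∈ U, α.1 ∉ Lg) → leav str h U ≠ 1)
    (T Δ : ℕ) (H : Set (Z N → FN N))
    (hH : ∀ h ∈ H, Adm Lg π h ∧ (∀ α, (h α).norm ≤ T) ∧
      (∀ U : Finset (Z N), U.Nonempty → (∀ α ∈ U, α.1 ∉ Lg) →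
        leav str (fun _ => 1) U = 0 → ∃ α ∈ U, h α = 1) ∧
      fS str h ≤ fS str (fun _ => 1) + Δ) :
    H.Finite ∧ H.ncard ≤ ((T + 1) * (2 * str.length + 2 * N + 1) ^ (2 * N)) ^
      ((2 * N * (2 * N) + 1) * (2 * (2 * N)) + 2 * N * (2 * N) + 1) *
      (2 ^ (2 * N) * (2 * Lg.card - 1) ^ (Δ / 2)) :=
  se_list' Lg π hl hne str hMin hNP T Δ H hH

end PW
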