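import Pool.Agent.Helper497.SE.Base

set_option autoImplicit false

namespace Pool.Agent.Helper497.SE

open Finset

variable {N k p : ℕ}



theorem reduce_append_head_aux (b : Z N) : ∀ (u : List (Z N)) (c d : Z N),
    FreeGroup.reduce (c :: d :: u) = c :: d :: u →
    (FreeGroup.reduce (c :: d :: u ++ [b])).head? = some c := by
  intro u
  induction u with
  | nil =>
    intro c d h
    have hcd : ¬ (c.1 = d.1 ∧ c.2 = !d.2) := by
      intro hc
      rw [FreeGroup.reduce.cons] at h
      simp only [FreeGroup.reduce_singleton] at h
      rw [if_pos hc] at h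
      exact absurd h (by simp)
    show (FreeGroup.reduce (c :: (d :: ([] ++ [b])))).head? = some c
    rw [FreeGroup.reduce.cons]
    simp only [List.nil_append]
    rw [FreeGroup.reduce.cons (x := d)]
    simp only [FreeGroup.reduce_singleton]
    by_cases hdb : d.1 = b.1 ∧ d.2 = !b.2
    · rw [if_pos hdb]; rfl
    · rw [if_neg hdb]
      simp only
      rw [if_neg hcd]; rfl
  | cons x u ih =>
    intro c d h
    have hd : FreeGroup.reduce (d :: x :: u) = d :: x :: u := by
      have := FreeGroup.IsReduced.of_reduce_eq h
      have h2 := this.tail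
      exact FreeGroup.IsReduced.reduce_eq h2
    have hcd : ¬ (c.1 = d.1 ∧ c.2 = !d.2) := by
      intro hc
      rw [FreeGroup.reduce.cons, hd] at h
      simp only at h
      rw [if_pos hc] at h
      have := congrArg List.length h
      simp at this
    have key := ih d x hd
    show (FreeGroup.reduce (c :: (d :: x :: u ++ [b]))).head? = some c
    rw [FreeGroup.reduce.cons]
    rcases hr : FreeGroup.reduce (d :: x :: u ++ [b]) with _ | ⟨y, l⟩
    · rfl
    · rw [hr] at key
      simp only [List.head?_cons, Option.some.injEq] at key
      subst key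
      simp only
      rw [if_neg hcd]; rfl

theorem toWord_lt_inv_mul (e : FreeGroup (Fin N)) (x0 : Z N) (h : e.toWord.head? ≠ some x0) :
    ((lt x0)⁻¹ * e).toWord = inv x0 :: e.toWord := by
  have h1 : (lt x0)⁻¹ * e = FreeGroup.mk (inv x0 :: e.toWord) := by
    conv_lhs => rw [← FreeGroup.mk_toWord (x := e)]
    rw [lt, FreeGroup.inv_mk, FreeGroup.mul_mk]
    rfl
  rw [h1, FreeGroup.toWord_mk, FreeGroup.reduce.cons, FreeGroup.reduce_toWord]
  rcases hw : e.toWord with _ | ⟨hd, tl⟩
  · rfl
  · simp only
    rw [if_neg]
    rintro ⟨h2, h3⟩
    apply h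
    rw [hw]
    simp only [List.head?_cons, Option.some.injEq]
    simp only [inv] at h2 h3
    ext
    · exact congrArg _ h2.symm
    · simpa using h3.symm

theorem head_mul_ol (g : FreeGroup (Fin N)) (c d : Z N) (u : List (Z N))
    (hg : g.toWord = c :: d :: u) (y : Option (Z N)) :
    (g * ol y).toWord.head? = some c := by
  rcases y with _ | b
  · simp [ol, hg]
  · have h1 : g * ol (some b) = FreeGroup.mk (c :: d :: u ++ [b]) := by
      conv_lhs => rw [← FreeGroup.mk_toWord (x := g), hg]
      simp only [ol, Option.elim, lt]
      rw [FreeGroup.mul_mk]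
    rw [h1, FreeGroup.toWord_mk]
    apply reduce_append_head_aux
    rw [← hg, FreeGroup.reduce_toWord]

theorem cc_mono (e : FreeGroup (Fin N)) (x0 x1 : Z N) (y y' : Option (Z N)) (h : x1 ≠ inv x0) :
    cc e (some x0) y ≤ cc ((lt x0)⁻¹ * e * ol y) (some x1) y' := by
  have hge : ∀ (e : FreeGroup (Fin N)) (x y : Option (Z N)), (-1 : ℤ) ≤ cc e x y := by
    intro e x y
    unfold cc
    split_ifs <;> norm_num
  by_cases h0 : e.toWord.head? = some x0
  · have : cc e (some x0) y = -1 := by
      unfold cc
      rw [if_neg (by simp), if_pos h0]
    rw [this]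
    exact hge _ _ _
  · by_cases h1 : e = 1 ∧ y = some x0
    · have hL : cc e (some x0) y = 0 := by
        unfold cc
        rw [if_neg (by simp), if_neg h0, if_pos h1]
      rw [hL, h1.1, h1.2]
      have : (lt x0)⁻¹ * 1 * ol (some x0) = 1 := by simp [ol]
      rw [this]
      unfold cc
      simp only [FreeGroup.toWord_one, List.head?_nil]
      split_ifs <;> simp_all
    · have hL : cc e (some x0) y = 1 := by
        unfold cc
        rw [if_neg (by simp), if_neg h0, if_neg h1]
      have hhead : ((lt x0)⁻¹ * e * ol y).toWord.head? = some (inv x0) := by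
        have hw := toWord_lt_inv_mul e x0 h0
        rcases he : e.toWord with _ | ⟨d, u⟩
        · have he1 : e = 1 := FreeGroup.toWord_eq_nil_iff.mp he
          subst he1
          rcases y with _ | b
          · simp only [ol, Option.elim, mul_one] at *
            rw [hw]; simp
          · have hb : b ≠ x0 := by
              intro hb
              exact h1 ⟨rfl, by rw [hb]⟩
            have h2 : (lt x0)⁻¹ * 1 * ol (some b) = FreeGroup.mk [inv x0, b] := by
              simp only [ol, Option.elim, lt, mul_one]
              rw [FreeGroup.inv_mk, FreeGroup.mul_mk]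
              rfl
            rw [h2, FreeGroup.toWord_mk, FreeGroup.reduce.cons]
            simp only [FreeGroup.reduce_singleton]
            rw [if_neg]
            · rfl
            · rintro ⟨h3, h4⟩
              apply hb
              simp only [inv] at h3 h4
              ext
              · exact congrArg _ h3.symm
              · simpa using h4.symm
        · rw [he] at hw
          exact head_mul_ol _ _ d u hw y
      rw [hL]
      unfold cc
      rw [if_neg (by simp), if_neg, if_neg]
      · rintro ⟨h5, -⟩
        rw [h5] at hhead
        simp at hhead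
      · rw [hhead]
        simp only [Option.some.injEq]
        exact fun hh => h hh.symm

end Pool.Agent.Helper497.SE
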