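import Pool.Agent.Helper497.SE.Base
import Pool.Agent.Helper419.PW.Red

set_option autoImplicit false

namespace Pool.Agent.Helper497.SE

open Finset

variable {N k p : ℕ}


theorem pos_succ (h : Fin p → FreeGroup (Fin N)) (t : ℕ) (α : Fin p) :
    pos h (t + 1) α = pos h t α * ol (nx h t α) := by
  unfold pos nx
  rw [List.take_add_one, ← FreeGroup.mul_mk]
  congr 1
  cases (h α).toWord[t]? with
  | none => simp [ol, FreeGroup.one_eq_mk]
  | some x => simp [ol, lt]
theorem pos_zero (h : Fin p → FreeGroup (Fin N)) : pos h 0 = fun _ => 1 := by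
  funext α
  simp [pos, FreeGroup.one_eq_mk]
theorem pos_eq (h : Fin p → FreeGroup (Fin N)) (T : ℕ) (hT : ∀ α, (h α).norm ≤ T) :
    pos h T = h := by
  funext α
  unfold pos
  rw [List.take_of_length_le (hT α), FreeGroup.mk_toWord]
theorem nx_none_mono (h : Fin p → FreeGroup (Fin N)) {s t : ℕ} (hst : s ≤ t) (α : Fin p)
    (hn : nx h t α ≠ none) : nx h s α ≠ none := by
  unfold nx at *
  simp only [ne_eq, List.getElem?_eq_none_iff, not_le] at *
  omega
theorem nx_red (h : Fin p → FreeGroup (Fin N)) (t : ℕ) (α : Fin p) (x0 x1 : Z N)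
    (h0 : nx h t α = some x0) (h1 : nx h (t + 1) α = some x1) : x1 ≠ inv x0 := by
  unfold nx at *
  rw [List.getElem?_eq_some_iff] at h0 h1
  obtain ⟨ht0, h0⟩ := h0
  obtain ⟨ht1, h1⟩ := h1
  have hred : FreeGroup.IsReduced (h α).toWord := FreeGroup.isReduced_toWord
  have hc := (List.isChain_iff_getElem.1 hred) t ht1
  rw [h0, h1] at hc
  intro he
  rw [he] at hc
  have := hc rfl
  simp [inv] at this
theorem nx_allowed {allow : Fin p → Finset (Z N)} {h : Fin p → FreeGroup (Fin N)}
    (ha : Allowed allow h) {t : ℕ} {α : Fin p} {x : Z N} (hx : nx h t α = some x) :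
    x ∈ allow α := ha α x (List.mem_of_getElem? hx)
theorem toWord_pos_aux_h4 (h : Fin p → FreeGroup (Fin N)) (t : ℕ) (α : Fin p) :
    (pos h t α).toWord = (h α).toWord.take t := by
  unfold pos
  rw [FreeGroup.toWord_mk]
  apply FreeGroup.IsReduced.reduce_eq
  exact FreeGroup.IsReduced.pwSub FreeGroup.isReduced_toWord (List.take_prefix _ _).isInfix
theorem pos_allowed {allow : Fin p → Finset (Z N)} {h : Fin p → FreeGroup (Fin N)}
    (ha : Allowed allow h) (t : ℕ) : Allowed allow (pos h t) := by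
  intro α x hx
  rw [toWord_pos_aux_h4] at hx
  exact ha α x (List.mem_of_mem_take hx)
theorem toWord_pos (h : Fin p → FreeGroup (Fin N)) (t : ℕ) (α : Fin p) :
    (pos h t α).toWord = (h α).toWord.take t := toWord_pos_aux_h4 h t α

end Pool.Agent.Helper497.SE
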