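import Pool.Agent.Helper497.SE.Base
import Pool.Agent.Helper497.SE.CCMono
import Pool.Agent.Helper497.SE.PosFacts

set_option autoImplicit false

namespace Pool.Agent.Helper497.SE

open Finset

variable {N k p : ℕ}




theorem C_succ_mono (S : Str N k p) (h : Fin p → FreeGroup (Fin N)) (t : ℕ) (d : D k)
    (hn : nx h (t + 1) (S.src d) ≠ none) : S.C h t d ≤ S.C h (t + 1) d := by
  have hn0 : nx h t (S.src d) ≠ none := nx_none_mono h (Nat.le_succ t) _ hn
  obtain ⟨x0, h0⟩ := Option.ne_none_iff_exists'.1 hn0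
  obtain ⟨x1, h1⟩ := Option.ne_none_iff_exists'.1 hn
  have hr := nx_red h t (S.src d) x0 x1 h0 h1
  have he : S.e (pos h (t + 1)) d = (lt x0)⁻¹ * S.e (pos h t) d * ol (nx h t (S.tgt d)) := by
    unfold Str.e
    rw [pos_succ, pos_succ, h0, mul_inv_rev]
    show (lt x0)⁻¹ * (pos h t (S.src d))⁻¹ * S.elt d * (pos h t (S.tgt d) * ol (nx h t (S.tgt d))) = _
    simp only [mul_assoc]
  unfold Str.C
  rw [he, h0, h1]
  exact cc_mono _ _ _ _ _ hr
theorem C_mono (S : Str N k p) (h : Fin p → FreeGroup (Fin N)) {s t : ℕ} (hst : s ≤ t) (d : D k)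
    (hn : nx h t (S.src d) ≠ none) : S.C h s d ≤ S.C h t d := by
  induction t, hst using Nat.le_induction with
  | base => exact le_rfl
  | succ t hst ih =>
    exact (ih (nx_none_mono h (Nat.le_succ t) _ hn)).trans (C_succ_mono S h t d hn)
theorem C_cases (S : Str N k p) (h : Fin p → FreeGroup (Fin N)) (t : ℕ) (d : D k) :
    S.C h t d = -1 ∨ S.C h t d = 0 ∨ S.C h t d = 1 := by
  unfold Str.C cc
  split_ifs <;> simp
theorem C_eq_zero (S : Str N k p) (h : Fin p → FreeGroup (Fin N)) (t : ℕ) (d : D k)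
    (hn : nx h t (S.src d) ≠ none) :
    S.C h t d = 0 ↔ (S.e (pos h t) d = 1 ∧ nx h t (S.tgt d) = nx h t (S.src d)) := by
  unfold Str.C cc
  rw [if_neg hn]
  constructor
  · intro hh
    by_cases h1 : (S.e (pos h t) d).toWord.head? = nx h t (S.src d)
    · rw [if_pos h1] at hh; norm_num at hh
    · by_cases h2 : S.e (pos h t) d = 1 ∧ nx h t (S.tgt d) = nx h t (S.src d)
      · exact h2
      · rw [if_neg h1, if_neg h2] at hh; norm_num at hh
  · intro hh
    rw [if_neg, if_pos hh]
    rw [hh.1, FreeGroup.toWord_one]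
    exact fun h' => hn h'.symm
theorem C_stop (S : Str N k p) (h : Fin p → FreeGroup (Fin N)) (t : ℕ) (d : D k)
    (hn : nx h t (S.src d) = none) : S.C h t d = 0 := by
  unfold Str.C cc
  rw [if_pos hn]
theorem C_neg_head (S : Str N k p) (h : Fin p → FreeGroup (Fin N)) (t : ℕ) (d : D k)
    (hc : S.C h t d = -1) : nx h t (S.src d) = (S.e (pos h t) d).toWord.head? := by
  unfold Str.C cc at hc
  by_cases h0 : nx h t (S.src d) = none
  · rw [if_pos h0] at hc; norm_num at hc
  · rw [if_neg h0] at hc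
    by_cases h1 : (S.e (pos h t) d).toWord.head? = nx h t (S.src d)
    · exact h1.symm
    · rw [if_neg h1] at hc
      by_cases h2 : S.e (pos h t) d = 1 ∧ nx h t (S.tgt d) = nx h t (S.src d)
      · rw [if_pos h2] at hc; norm_num at hc
      · rw [if_neg h2] at hc; norm_num at hc

end Pool.Agent.Helper497.SE
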