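import Pool.Agent.Helper497.SE.Base

set_option autoImplicit false

namespace Pool.Agent.Helper497.SE

open Finset

variable {N k p : ℕ}


theorem rv_rv (d : D k) : rv (rv d) = d := by
  obtain ⟨i, b⟩ := d
  simp [rv]
theorem src_rv (S : Str N k p) (d : D k) : S.src (rv d) = S.tgt d := by
  obtain ⟨i, b⟩ := d
  cases b <;> simp [rv, Str.src, Str.tgt]
theorem tgt_rv (S : Str N k p) (d : D k) : S.tgt (rv d) = S.src d := by
  obtain ⟨i, b⟩ := d
  cases b <;> simp [rv, Str.src, Str.tgt]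
theorem elt_rv (S : Str N k p) (d : D k) : S.elt (rv d) = (S.elt d)⁻¹ := by
  obtain ⟨i, b⟩ := d
  cases b <;> simp [rv, Str.elt]
theorem e_rv (S : Str N k p) (c : Fin p → FreeGroup (Fin N)) (d : D k) :
    S.e c (rv d) = (S.e c d)⁻¹ := by
  unfold Str.e
  rw [src_rv, tgt_rv, elt_rv]
  group
theorem two_f (S : Str N k p) (c : Fin p → FreeGroup (Fin N)) :
    ∑ d : D k, (S.e c d).norm = 2 * S.f c := by
  rw [Fintype.sum_prod_type]
  unfold Str.f
  rw [Finset.mul_sum]
  apply Finset.sum_congr rfl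
  intro s _
  rw [Fintype.sum_bool]
  have h : S.e c (s, false) = (S.e c (s, true))⁻¹ := e_rv S c (s, true)
  rw [h, FreeGroup.norm_inv_eq]
  ring

end Pool.Agent.Helper497.SE
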