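import Pool.Agent.Helper497.SE.Base
import Pool.Agent.Helper497.SE.PosFacts
import Pool.Agent.Helper497.SE.CFacts
import Pool.Agent.Helper497.SE.RvFacts

set_option autoImplicit false

namespace Pool.Agent.Helper497.SE

open Finset

variable {N k p : ℕ}





theorem Mv_anti (h : Fin p → FreeGroup (Fin N)) (t : ℕ) : Mv h (t + 1) ⊆ Mv h t := by
  intro α hα
  simp only [Mv, Finset.mem_filter, Finset.mem_univ, true_and] at hα ⊢
  exact nx_none_mono h (Nat.le_succ t) α hα

theorem Ng_anti (S : Str N k p) (h : Fin p → FreeGroup (Fin N)) (t : ℕ) :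
    S.Ng h (t + 1) ⊆ S.Ng h t := by
  intro α hα
  simp only [Str.Ng, Finset.mem_filter, Finset.mem_univ, true_and] at hα ⊢
  obtain ⟨hn, d, hd, hc⟩ := hα
  refine ⟨nx_none_mono h (Nat.le_succ t) α hn, d, hd, ?_⟩
  have h1 := C_succ_mono S h t d (by rw [hd]; exact hn)
  rw [hc] at h1
  rcases C_cases S h t d with h2 | h2 | h2
  · exact h2
  · omega
  · omega

theorem Cp_anti_aux33087 (S : Str N k p) (h : Fin p → FreeGroup (Fin N)) (t : ℕ)
    (hN : S.Ng h (t + 1) = S.Ng h t) (d : D k)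
    (hn : nx h (t + 1) (S.src d) ≠ none)
    (he : S.e (pos h (t + 1)) d = 1)
    (heq : nx h (t + 1) (S.src d) = nx h (t + 1) (S.tgt d))
    (hg : S.src d ∉ S.Ng h (t + 1)) :
    S.e (pos h t) d = 1 ∧ nx h t (S.tgt d) = nx h t (S.src d) := by
  have hn' : nx h t (S.src d) ≠ none := nx_none_mono h (Nat.le_succ t) _ hn
  have h0 : S.C h (t + 1) d = 0 := (C_eq_zero S h (t + 1) d hn).2 ⟨he, heq.symm⟩
  have h1 := C_succ_mono S h t d hn
  rw [h0] at h1
  rw [← C_eq_zero S h t d hn']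
  rcases C_cases S h t d with h2 | h2 | h2
  · exfalso
    apply hg
    rw [hN]
    simp only [Str.Ng, Finset.mem_filter, Finset.mem_univ, true_and]
    exact ⟨hn', d, rfl, h2⟩
  · exact h2
  · omega

theorem Cp_anti (S : Str N k p) (h : Fin p → FreeGroup (Fin N)) (t : ℕ)
    (hN : S.Ng h (t + 1) = S.Ng h t) (α : Fin p) : S.Cp h (t + 1) α ⊆ S.Cp h t α := by
  intro β hβ
  simp only [Str.Cp, Finset.mem_filter, Finset.mem_univ, true_and] at hβ ⊢
  refine Relation.ReflTransGen.mono (r := S.Ed h (t + 1)) ?_ _ _ hβ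
  intro γ δ hγδ
  obtain ⟨d, hs, ht, he, heq, hn, hor⟩ := hγδ
  subst hs
  subst ht
  have hn' : nx h t (S.src d) ≠ none := nx_none_mono h (Nat.le_succ t) _ hn
  rcases hor with hg | hg
  · obtain ⟨h1, h2⟩ := Cp_anti_aux33087 S h t hN d hn he heq hg
    exact ⟨d, rfl, rfl, h1, h2.symm, hn', Or.inl (by rw [← hN]; exact hg)⟩
  · have hnt : nx h (t + 1) (S.src (rv d)) ≠ none := by
      rw [src_rv, ← heq]; exact hn
    have he' : S.e (pos h (t + 1)) (rv d) = 1 := by
      rw [e_rv, he, inv_one]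
    have heq' : nx h (t + 1) (S.src (rv d)) = nx h (t + 1) (S.tgt (rv d)) := by
      rw [src_rv, tgt_rv]; exact heq.symm
    have hg' : S.src (rv d) ∉ S.Ng h (t + 1) := by
      rw [src_rv]; exact hg
    obtain ⟨h1, h2⟩ := Cp_anti_aux33087 S h t hN (rv d) hnt he' heq' hg'
    rw [e_rv, inv_eq_one] at h1
    rw [src_rv, tgt_rv] at h2
    exact ⟨d, rfl, rfl, h1, h2, hn', Or.inr (by rw [← hN]; exact hg)⟩

end Pool.Agent.Helper497.SE
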