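import Mathlib

set_option autoImplicit false

namespace Pool.Agent.Helper497.SE

open Finset

/-- letters -/
abbrev Z (N : ℕ) := Fin N × Bool

variable {N k p : ℕ}

/-- inverse letter -/
def inv (x : Z N) : Z N := (x.1, !x.2)

/-- the element given by one letter -/
def lt (x : Z N) : FreeGroup (Fin N) := FreeGroup.mk [x]

/-- the element given by an optional letter -/
def ol (x : Option (Z N)) : FreeGroup (Fin N) := x.elim 1 lt

/-- contribution of the end with next letter `x` of a strand with element `e` (other end: next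
letter `y`) -/
def cc (e : FreeGroup (Fin N)) (x y : Option (Z N)) : ℤ :=
  if x = none then 0 else if e.toWord.head? = x then -1 else if e = 1 ∧ y = x then 0 else 1

/-- `k` strands between points of `Fin p` -/
structure Str (N k p : ℕ) where
  a : Fin k → Fin p
  g : Fin k → FreeGroup (Fin N)
  b : Fin k → Fin p

/-- strand ends (directed strands) -/
abbrev D (k : ℕ) := Fin k × Bool

def rv (d : D k) : D k := (d.1, !d.2)

def Str.src (S : Str N k p) (d : D k) : Fin p := if d.2 then S.a d.1 else S.b d.1
def Str.tgt (S : Str N k p) (d : D k) : Fin p := if d.2 then S.b d.1 else S.a d.1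
def Str.elt (S : Str N k p) (d : D k) : FreeGroup (Fin N) :=
  if d.2 then S.g d.1 else (S.g d.1)⁻¹

/-- element of the strand in the position `c` -/
def Str.e (S : Str N k p) (c : Fin p → FreeGroup (Fin N)) (d : D k) : FreeGroup (Fin N) :=
  (c (S.src d))⁻¹ * S.elt d * c (S.tgt d)

/-- total length of the strands in the position `c` -/
def Str.f (S : Str N k p) (c : Fin p → FreeGroup (Fin N)) : ℕ := ∑ s : Fin k, (S.e c (s, true)).norm

/-- next letter at time `t` (none = stopped) -/
def nx (h : Fin p → FreeGroup (Fin N)) (t : ℕ) (α : Fin p) : Option (Z N) := (h α).toWord[t]?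

/-- position at time `t` -/
def pos (h : Fin p → FreeGroup (Fin N)) (t : ℕ) (α : Fin p) : FreeGroup (Fin N) :=
  FreeGroup.mk ((h α).toWord.take t)

/-- contribution of the end `d` at time `t` -/
def Str.C (S : Str N k p) (h : Fin p → FreeGroup (Fin N)) (t : ℕ) (d : D k) : ℤ :=
  cc (S.e (pos h t) d) (nx h t (S.src d)) (nx h t (S.tgt d))

/-- only allowed letters are used -/
def Allowed (allow : Fin p → Finset (Z N)) (c : Fin p → FreeGroup (Fin N)) : Prop :=
  ∀ α, ∀ x ∈ (c α).toWord, x ∈ allow α

/-- slide-minimality -/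
def Str.Min (S : Str N k p) (allow : Fin p → Finset (Z N)) : Prop :=
  ∀ (U : Finset (Fin p)) (y : Z N), (∀ α ∈ U, y ∈ allow α) →
    S.f (fun _ => 1) ≤ S.f (fun α => if α ∈ U then lt y else 1)

/-- the strand ends leaving `U` in the position `c` -/
def Str.leave (S : Str N k p) (c : Fin p → FreeGroup (Fin N)) (U : Finset (Fin p)) : Finset (D k) :=
  univ.filter (fun d => S.src d ∈ U ∧ ¬ (S.tgt d ∈ U ∧ S.e c d = 1))

/-- never exactly one strand end leaves `U` -/
def Str.NP (S : Str N k p) (allow : Fin p → Finset (Z N)) : Prop :=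
  ∀ c, Allowed allow c → ∀ U : Finset (Fin p), (∃ y, ∀ α ∈ U, y ∈ allow α) → (S.leave c U).card ≠ 1

/-- normalisation of `h` -/
def Str.Nrm (S : Str N k p) (h : Fin p → FreeGroup (Fin N)) : Prop :=
  ∀ U : Finset (Fin p), U.Nonempty → (∀ d, S.src d ∈ U → S.tgt d ∈ U ∧ S.elt d = 1) →
    ∃ α ∈ U, h α = 1

/-- moving points -/
def Mv (h : Fin p → FreeGroup (Fin N)) (t : ℕ) : Finset (Fin p) :=
  univ.filter (fun α => nx h t α ≠ none)

/-- moving points with an end contributing `-1` -/
def Str.Ng (S : Str N k p) (h : Fin p → FreeGroup (Fin N)) (t : ℕ) : Finset (Fin p) :=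
  univ.filter (fun α => nx h t α ≠ none ∧ ∃ d, S.src d = α ∧ S.C h t d = -1)

/-- coincidence edges (not between two points of `Ng`) -/
def Str.Ed (S : Str N k p) (h : Fin p → FreeGroup (Fin N)) (t : ℕ) (α β : Fin p) : Prop :=
  ∃ d, S.src d = α ∧ S.tgt d = β ∧ S.e (pos h t) d = 1 ∧ nx h t α = nx h t β ∧ nx h t α ≠ none ∧
    (α ∉ S.Ng h t ∨ β ∉ S.Ng h t)

open Classical in
/-- component of `α` -/
noncomputable def Str.Cp (S : Str N k p) (h : Fin p → FreeGroup (Fin N)) (t : ℕ) (α : Fin p) :
    Finset (Fin p) :=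
  univ.filter (fun β => Relation.ReflTransGen (S.Ed h t) α β)

/-- rules: stop / follow the strand end `d` / letter of the free component with minimum `β` -/
abbrev Rl (k p : ℕ) := Option (D k ⊕ Fin p)

/-- the rule used by `α` at time `t`; `dd β` is the rule (follow a fixed strand) of `β ∈ Ng` -/
noncomputable def Str.rule (S : Str N k p) (dd : Fin p → Rl k p) (h : Fin p → FreeGroup (Fin N))
    (t : ℕ) (α : Fin p) : Rl k p :=
  if nx h t α = none then none
  else if α ∈ S.Ng h t then dd α
  else if hne : (S.Cp h t α ∩ S.Ng h t).Nonempty then dd ((S.Cp h t α ∩ S.Ng h t).min' hne)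
  else if hn : (S.Cp h t α).Nonempty then some (Sum.inr ((S.Cp h t α).min' hn))
  else none

/-- `dd` is a valid choice of strands to follow -/
def Str.Good (S : Str N k p) (h : Fin p → FreeGroup (Fin N)) (dd : Fin p → Rl k p) : Prop :=
  ∀ α t, α ∈ S.Ng h t → ∃ d, dd α = some (Sum.inl d) ∧ S.src d = α ∧ S.C h t d = -1

/-- decoding: the next letter from the position and the rules -/
def Str.dec (S : Str N k p) (c : Fin p → FreeGroup (Fin N)) (ρ : Fin p → Rl k p)
    (l : Fin p → Option (Z N)) (α : Fin p) : Option (Z N) :=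
  match ρ α with
  | none => none
  | some (Sum.inl d) => (S.e c d).toWord.head?
  | some (Sum.inr β) => l β

/-- points with a free letter under the rules `ρ` -/
def Rs (ρ : Fin p → Rl k p) : Finset (Fin p) := univ.filter (fun β => ρ β = some (Sum.inr β))

/-- potential -/
noncomputable def Str.Psi (S : Str N k p) (h : Fin p → FreeGroup (Fin N)) (t : ℕ) : ℕ :=
  (p * p + 1) * ((Mv h t).card + (S.Ng h t).card) + ∑ α, (S.Cp h t α).card

end Pool.Agent.Helper497.SE
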