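import Pool.Agent.Helper497.SE.Base

set_option autoImplicit false

namespace Pool.Agent.Helper497.SE

open Finset

variable {N k p : ℕ}


theorem blocks {V W : Type} [Fintype V] [DecidableEq V] [Fintype W] [DecidableEq W] (src : W → V)
    (c : W → ℤ) (M R : Finset V) (U : V → Finset V) (h0 : ∀ d, src d ∉ M → c d = 0)
    (hUM : ∀ α ∈ R, U α ⊆ M) (hdis : ∀ α ∈ R, ∀ β ∈ R, α ≠ β → Disjoint (U α) (U β))
    (h2 : ∀ α ∈ R, 2 ≤ ∑ d ∈ univ.filter (fun d => src d ∈ U α), c d)
    (hW : 0 ≤ ∑ d ∈ univ.filter (fun d => src d ∈ M \ R.biUnion U), c d) :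
    2 * (R.card : ℤ) ≤ ∑ d, c d := by
  classical
  have e1 : (univ.filter fun d => src d ∈ R.biUnion U) =
      R.biUnion (fun α => univ.filter fun d => src d ∈ U α) := by
    ext d
    simp only [mem_filter, mem_univ, true_and, mem_biUnion]
  have e2 : ∑ d ∈ univ.filter (fun d => src d ∈ R.biUnion U), c d =
      ∑ α ∈ R, ∑ d ∈ univ.filter (fun d => src d ∈ U α), c d := by
    rw [e1, Finset.sum_biUnion]
    intro α hα β hβ hne
    have h := hdis α hα β hβ hne
    rw [Function.onFun, Finset.disjoint_left]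
    intro d hd hd'
    rw [mem_filter] at hd hd'
    exact (Finset.disjoint_left.mp h) hd.2 hd'.2
  have e3 : ∑ d ∈ univ.filter (fun d => src d ∈ M \ R.biUnion U), c d =
      ∑ d ∈ univ.filter (fun d => ¬ src d ∈ R.biUnion U), c d := by
    refine Finset.sum_subset ?_ ?_
    · intro d hd
      rw [mem_filter, mem_sdiff] at hd
      rw [mem_filter]
      exact ⟨mem_univ _, hd.2.2⟩
    · intro d hd hd'
      rw [mem_filter] at hd
      apply h0
      intro hM
      apply hd'
      rw [mem_filter, mem_sdiff]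
      exact ⟨mem_univ _, hM, hd.2⟩
  have e4 := Finset.sum_filter_add_sum_filter_not univ (fun d => src d ∈ R.biUnion U) c
  have e5 : 2 * (R.card : ℤ) ≤ ∑ α ∈ R, ∑ d ∈ univ.filter (fun d => src d ∈ U α), c d := by
    have h := Finset.sum_le_sum h2
    rw [Finset.sum_const, nsmul_eq_mul] at h
    linarith
  rw [← e4, e2, ← e3]
  linarith

end Pool.Agent.Helper497.SE
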