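import Pool.Agent.Helper497.SE.Base
import Pool.Agent.Helper419.PW.Red

set_option autoImplicit false

namespace Pool.Agent.Helper497.SE

open Finset

variable {N k p : ℕ}


theorem norm_step_le_lt (a : Z N) : (lt a : FreeGroup (Fin N)).norm ≤ 1 :=
  FreeGroup.norm_mk_le

theorem norm_step_le_cons (e : FreeGroup (Fin N)) (a : Z N) (h : e.toWord.head? = some a) :
    ∃ v, e.toWord = a :: v ∧ (lt a)⁻¹ * e = FreeGroup.mk v ∧
      ((lt a)⁻¹ * e).toWord = v := by
  obtain ⟨v, hv⟩ : ∃ v, e.toWord = a :: v := by
    cases h' : e.toWord with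
    | nil =>
      rw [h'] at h
      exact absurd h (by simp)
    | cons b v =>
      rw [h', List.head?_cons, Option.some.injEq] at h
      exact ⟨v, by rw [h]⟩
  have he : e = lt a * FreeGroup.mk v := by
    unfold lt
    rw [FreeGroup.mul_mk, List.singleton_append, ← hv, FreeGroup.mk_toWord]
  have h1 : (lt a)⁻¹ * e = FreeGroup.mk v := by
    rw [he, inv_mul_cancel_left]
  refine ⟨v, hv, h1, ?_⟩
  have hr : FreeGroup.IsReduced e.toWord := FreeGroup.isReduced_toWord
  rw [h1, FreeGroup.toWord_mk]
  apply FreeGroup.IsReduced.reduce_eq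
  refine hr.pwSub ?_
  rw [hv]
  exact (List.suffix_cons a v).isInfix

theorem norm_step_le_F2 (e : FreeGroup (Fin N)) (a : Z N) (h : e.toWord.head? = some a) :
    ((lt a)⁻¹ * e).norm + 1 = e.norm := by
  obtain ⟨v, hv, _, h2⟩ := norm_step_le_cons e a h
  unfold FreeGroup.norm
  rw [h2, hv, List.length_cons]

theorem norm_step_le_F1 (e : FreeGroup (Fin N)) (a : Z N) :
    ((lt a)⁻¹ * e).norm ≤ e.norm + 1 := by
  refine (FreeGroup.norm_mul_le _ _).trans ?_
  rw [FreeGroup.norm_inv_eq]
  have := norm_step_le_lt a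
  omega

theorem norm_step_le_rev (e : FreeGroup (Fin N)) (a : Z N) :
    (e * lt a).norm = ((lt a)⁻¹ * e⁻¹).norm := by
  rw [← FreeGroup.norm_inv_eq, mul_inv_rev]

theorem norm_step_le_two (e : FreeGroup (Fin N)) (a : Z N) (h : e.toWord.head? = some a)
    (h' : e⁻¹.toWord.head? = some a) : ((lt a)⁻¹ * e * lt a).norm + 2 = e.norm := by
  obtain ⟨v, hv, h1, h2⟩ := norm_step_le_cons e a h
  have h3 : (((lt a)⁻¹ * e)⁻¹).toWord.head? = some a := by
    rw [FreeGroup.toWord_inv, h2]
    rw [FreeGroup.toWord_inv, hv] at h'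
    have e1 : FreeGroup.invRev (a :: v) = FreeGroup.invRev v ++ [(a.1, !a.2)] := by
      simp [FreeGroup.invRev]
    rw [e1] at h'
    cases hw : FreeGroup.invRev v with
    | nil =>
      rw [hw, List.nil_append, List.head?_cons, Option.some.injEq] at h'
      have h4 := congrArg Prod.snd h'
      simp at h4
    | cons b w =>
      rw [hw, List.cons_append, List.head?_cons] at h'
      rw [List.head?_cons]
      exact h'
  have h4 := norm_step_le_F2 _ a h3
  have h5 := norm_step_le_F2 e a h
  rw [norm_step_le_rev]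
  rw [FreeGroup.norm_inv_eq] at h4
  omega


theorem norm_step_le (e : FreeGroup (Fin N)) (a : Z N) (x y : Option (Z N))
    (hx : x = none ∨ x = some a) (hy : y = none ∨ y = some a) :
    (((ol x)⁻¹ * e * ol y).norm : ℤ) ≤ (e.norm : ℤ) + cc e x y + cc e⁻¹ y x := by
  have hn : ¬ (some a = (none : Option (Z N))) := Option.some_ne_none a
  have hF1 := norm_step_le_F1 e a
  have hF1' := norm_step_le_F1 e⁻¹ a
  rw [FreeGroup.norm_inv_eq] at hF1'
  rcases hx with rfl | rfl <;> rcases hy with rfl | rfl
  · simp [ol, cc]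
  · have e1 : (ol (none : Option (Z N)))⁻¹ * e * ol (some a) = e * lt a := by
      simp [ol]
    rw [e1, norm_step_le_rev]
    have e2 : cc e none (some a) = 0 := by simp [cc]
    rw [e2]
    unfold cc
    rw [if_neg hn]
    by_cases h : e⁻¹.toWord.head? = some a
    · have h2 := norm_step_le_F2 e⁻¹ a h
      rw [FreeGroup.norm_inv_eq] at h2
      rw [if_pos h]
      omega
    · rw [if_neg h, if_neg (by simp)]
      omega
  · have e1 : (ol (some a))⁻¹ * e * ol (none : Option (Z N)) = (lt a)⁻¹ * e := by
      simp [ol]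
    rw [e1]
    have e2 : cc e⁻¹ none (some a) = 0 := by simp [cc]
    rw [e2]
    unfold cc
    rw [if_neg hn]
    by_cases h : e.toWord.head? = some a
    · have h2 := norm_step_le_F2 e a h
      rw [if_pos h]
      omega
    · rw [if_neg h, if_neg (by simp)]
      omega
  · have e1 : (ol (some a))⁻¹ * e * ol (some a) = (lt a)⁻¹ * e * lt a := rfl
    rw [e1]
    unfold cc
    rw [if_neg hn, if_neg hn]
    by_cases h1 : e = 1
    · subst h1
      simp
    · have h1' : e⁻¹ ≠ 1 := fun h => h1 (inv_eq_one.1 h)
      have hlt := norm_step_le_lt a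
      by_cases h : e.toWord.head? = some a
      · by_cases h' : e⁻¹.toWord.head? = some a
        · have h2 := norm_step_le_two e a h h'
          rw [if_pos h, if_pos h']
          omega
        · have h2 := norm_step_le_F2 e a h
          rw [if_pos h, if_neg h', if_neg (fun h => h1' h.1)]
          have h3 := FreeGroup.norm_mul_le ((lt a)⁻¹ * e) (lt a)
          omega
      · by_cases h' : e⁻¹.toWord.head? = some a
        · have h2 := norm_step_le_F2 e⁻¹ a h'
          rw [if_neg h, if_neg (fun h => h1 h.1), if_pos h']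
          have h3 := norm_step_le_F1 (e * lt a) a
          rw [norm_step_le_rev e a] at h3
          rw [FreeGroup.norm_inv_eq] at h2
          rw [mul_assoc]
          omega
        · rw [if_neg h, if_neg (fun h => h1 h.1), if_neg h', if_neg (fun h => h1' h.1)]
          have h3 := FreeGroup.norm_mul_le ((lt a)⁻¹ * e) (lt a)
          omega

end Pool.Agent.Helper497.SE
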