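import Pool.Agent.Helper497.SE.Base
import Pool.Agent.Helper497.SE.NStepLe
import Pool.Agent.Helper497.SE.RvFacts

set_option autoImplicit false

namespace Pool.Agent.Helper497.SE

open Finset

variable {N k p : ℕ}




theorem min_sum (S : Str N k p) (allow : Fin p → Finset (Z N)) (hmin : S.Min allow)
    (U : Finset (Fin p)) (a : Z N) (hU : ∀ α ∈ U, a ∈ allow α) :
    0 ≤ ∑ d ∈ univ.filter (fun d : D k => S.src d ∈ U),
      cc (S.elt d) (some a) (if S.tgt d ∈ U then some a else none) := by
  let o : Fin p → Option (Z N) := fun α => if α ∈ U then some a else none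
  have hol : ∀ α, ol (o α) = if α ∈ U then lt a else 1 := by
    intro α
    by_cases h : α ∈ U
    · simp [o, ol, h]
    · simp [o, ol, h]
  have ho : ∀ α, o α = none ∨ o α = some a := by
    intro α
    by_cases h : α ∈ U
    · right; simp [o, h]
    · left; simp [o, h]
  have h1 : (S.f (fun _ => 1) : ℤ) ≤ (S.f (fun α => if α ∈ U then lt a else 1) : ℤ) := by
    exact_mod_cast hmin U a hU
  have h2 : (S.f (fun α => if α ∈ U then lt a else 1) : ℤ) ≤
      (S.f (fun _ => 1) : ℤ) + ∑ d : D k, cc (S.elt d) (o (S.src d)) (o (S.tgt d)) := by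
    unfold Str.f
    rw [Fintype.sum_prod_type]
    push_cast
    rw [← Finset.sum_add_distrib]
    refine Finset.sum_le_sum fun s _ => ?_
    rw [Fintype.sum_bool]
    have h3 := norm_step_le (S.g s) a (o (S.a s)) (o (S.b s)) (ho _) (ho _)
    have e1 : S.e (fun α => if α ∈ U then lt a else 1) (s, true) =
        (ol (o (S.a s)))⁻¹ * S.g s * ol (o (S.b s)) := by
      rw [hol, hol]
      rfl
    have e2 : S.e (fun _ => 1) (s, true) = S.g s := by
      simp [Str.e, Str.elt]
    have e3 : S.elt (s, true) = S.g s := rfl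
    have e4 : S.elt (s, false) = (S.g s)⁻¹ := rfl
    have e5 : S.src (s, true) = S.a s := rfl
    have e6 : S.tgt (s, true) = S.b s := rfl
    have e7 : S.src (s, false) = S.b s := rfl
    have e8 : S.tgt (s, false) = S.a s := rfl
    rw [e1, e2, e3, e4, e5, e6, e7, e8]
    linarith
  have h4 : ∑ d : D k, cc (S.elt d) (o (S.src d)) (o (S.tgt d)) =
      ∑ d ∈ univ.filter (fun d : D k => S.src d ∈ U),
        cc (S.elt d) (some a) (if S.tgt d ∈ U then some a else none) := by
    rw [Finset.sum_filter]
    refine Finset.sum_congr rfl fun d _ => ?_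
    by_cases h : S.src d ∈ U
    · rw [if_pos h]
      simp [o, h]
    · rw [if_neg h]
      simp [o, h, cc]
  rw [← h4]
  linarith

end Pool.Agent.Helper497.SE
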