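import Pool.Agent.Helper497.SE.Base
import Pool.Agent.Helper497.SE.PosFacts
import Pool.Agent.Helper497.SE.CFacts
import Pool.Agent.Helper497.SE.MinSum

set_option autoImplicit false

namespace Pool.Agent.Helper497.SE

open Finset

variable {N k p : ℕ}






theorem cc_le_C_l457 (S : Str N k p) 
    (h : Fin p → FreeGroup (Fin N)) (t : ℕ) (U : Finset (Fin p))
    (hmov : ∀ α ∈ U, nx h t α ≠ none)
    (hcl : ∀ d, S.src d ∈ U → S.e (pos h t) d = 1 → nx h t (S.tgt d) = nx h t (S.src d) →
      S.tgt d ∈ U) (a : Z N) (d : D k) (hd : S.src d ∈ U) (hda : nx h 0 (S.src d) = some a) :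
    cc (S.elt d) (some a) (if S.tgt d ∈ U.filter (fun α => nx h 0 α = some a) then some a
      else none) ≤ S.C h t d := by
  have hC0 : S.C h 0 d = cc (S.elt d) (some a) (nx h 0 (S.tgt d)) := by
    unfold Str.C
    rw [pos_zero, hda]
    congr 1
    simp [Str.e]
  have hm : S.C h 0 d ≤ S.C h t d := C_mono S h (Nat.zero_le t) d (hmov _ hd)
  have hcas := C_cases S h t d
  by_cases hh : (S.elt d).toWord.head? = some a
  · have : cc (S.elt d) (some a) (if S.tgt d ∈ U.filter (fun α => nx h 0 α = some a) then some a
      else none) = -1 := by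
      simp [cc, hh]
    rw [this]
    rcases hcas with h1 | h1 | h1 <;> rw [h1] <;> norm_num
  · by_cases he : S.elt d = 1
    · by_cases hT : S.tgt d ∈ U.filter (fun α => nx h 0 α = some a)
      · have hT2 := (Finset.mem_filter.mp hT).2
        rw [if_pos hT, ← hT2]
        rw [hT2, ← hT2] at hC0
        have h3 : cc (S.elt d) (some a) (nx h 0 (S.tgt d)) = S.C h 0 d := by
          rw [hC0, hT2]
        have h4 : cc (S.elt d) (nx h 0 (S.tgt d)) (nx h 0 (S.tgt d)) = S.C h 0 d := by
          rw [← h3, hT2]
        rw [h4]
        exact hm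
      · rw [if_neg hT]
        have hL : cc (S.elt d) (some a) none = 1 := by
          simp only [cc]
          rw [if_neg (by simp), if_neg hh, if_neg (by simp)]
        rw [hL]
        by_cases hx : nx h 0 (S.tgt d) = some a
        · have hC00 : S.C h 0 d = 0 := by
            rw [hC0]
            simp only [cc]
            rw [if_neg (by simp), if_neg hh, if_pos ⟨he, hx⟩]
          have hTU : S.tgt d ∉ U := fun hu => hT (Finset.mem_filter.mpr ⟨hu, hx⟩)
          have hne : S.C h t d ≠ 0 := by
            intro h0
            have := (C_eq_zero S h t d (hmov _ hd)).mp h0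
            exact hTU (hcl d hd this.1 this.2)
          rcases hcas with h1 | h1 | h1
          · rw [hC00, h1] at hm
            norm_num at hm
          · exact absurd h1 hne
          · rw [h1]
        · have hC01 : S.C h 0 d = 1 := by
            rw [hC0]
            simp only [cc]
            rw [if_neg (by simp), if_neg hh, if_neg (fun hc => hx hc.2)]
          rw [← hC01]
          exact hm
    · have hC01 : S.C h 0 d = 1 := by
        rw [hC0]
        simp only [cc]
        rw [if_neg (by simp), if_neg hh, if_neg (fun hc => he hc.1)]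
      have hL : cc (S.elt d) (some a) (if S.tgt d ∈ U.filter (fun α => nx h 0 α = some a)
          then some a else none) = 1 := by
        simp only [cc]
        rw [if_neg (by simp), if_neg hh, if_neg (fun hc => he hc.1)]
      rw [hL, ← hC01]
      exact hm

theorem closed_sum (S : Str N k p) (allow : Fin p → Finset (Z N)) (hmin : S.Min allow)
    (h : Fin p → FreeGroup (Fin N)) (ha : Allowed allow h) (t : ℕ) (U : Finset (Fin p))
    (hmov : ∀ α ∈ U, nx h t α ≠ none)
    (hcl : ∀ d, S.src d ∈ U → S.e (pos h t) d = 1 → nx h t (S.tgt d) = nx h t (S.src d) →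
      S.tgt d ∈ U) :
    0 ≤ ∑ d ∈ univ.filter (fun d : D k => S.src d ∈ U), S.C h t d := by
  classical
  rw [← Finset.sum_fiberwise (univ.filter (fun d : D k => S.src d ∈ U))
    (fun d => nx h 0 (S.src d)) (fun d => S.C h t d)]
  apply Finset.sum_nonneg
  intro b _
  cases b with
  | none =>
    have : (univ.filter (fun d : D k => S.src d ∈ U)).filter
        (fun d => nx h 0 (S.src d) = none) = ∅ := by
      apply Finset.filter_eq_empty_iff.mpr
      intro d hd
      have hd' := (Finset.mem_filter.mp hd).2
      exact nx_none_mono h (Nat.zero_le t) _ (hmov _ hd')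
    rw [this, Finset.sum_empty]
  | some a =>
    have h1 := min_sum S allow hmin (U.filter (fun α => nx h 0 α = some a)) a (by
      intro α hα
      exact nx_allowed ha (Finset.mem_filter.mp hα).2)
    have hset : (univ.filter (fun d : D k => S.src d ∈ U)).filter
        (fun d => nx h 0 (S.src d) = some a)
        = univ.filter (fun d : D k => S.src d ∈ U.filter (fun α => nx h 0 α = some a)) := by
      ext d
      simp [Finset.mem_filter]
    rw [hset]
    refine h1.trans ?_
    apply Finset.sum_le_sum
    intro d hd
    have hd' := Finset.mem_filter.mp (Finset.mem_filter.mp hd).2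
    exact cc_le_C_l457 S h t U hmov hcl a d hd'.1 hd'.2

end Pool.Agent.Helper497.SE
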