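import Pool.Agent.Helper497.SE.Base

set_option autoImplicit false

namespace Pool.Agent.Helper497.SE

open Finset

variable {N k p : ℕ}


/-- decoder -/
def cntDec {R : Type} (T E : ℕ) (x : (Fin (E + 1) → Fin (T + 1)) × (Fin (E + 1) → R)) :
    Fin T → R := fun i =>
  x.2 (Fin.ofNat (E + 1) (univ.filter (fun v : Fin (E + 1) => (i : ℕ) < (x.1 v : ℕ))).card)

theorem cntDec_spec {R : Type} [Nonempty R] (T E : ℕ) (c : Fin T → R) (Ψ : ℕ → ℕ)
    (hΨ : Antitone Ψ) (h0 : Ψ 0 ≤ E) (hc : ∀ i j : Fin T, Ψ i = Ψ j → c i = c j) :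
    ∃ x, cntDec T E x = c := by
  classical
  have hex : ∀ v : ℕ, ∃ t, t = T ∨ Ψ t ≤ v := fun v => ⟨T, Or.inl rfl⟩
  have hθ : ∀ v : ℕ, Nat.find (hex v) < T + 1 := fun v =>
    Nat.lt_succ_of_le (Nat.find_min' (hex v) (Or.inl rfl))
  have hiff : ∀ (v : ℕ) (t : Fin T), (t : ℕ) < Nat.find (hex v) ↔ v < Ψ t := by
    intro v t
    constructor
    · intro h
      have := Nat.find_min (hex v) h
      push Not at this
      exact this.2
    · intro h
      by_contra hle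
      push Not at hle
      rcases Nat.find_spec (hex v) with h1 | h1
      · have := t.2
        omega
      · have := hΨ hle
        omega
  have hG : ∃ G : Fin (E + 1) → R, ∀ i : Fin T, G (Fin.ofNat (E + 1) (Ψ i)) = c i := by
    refine ⟨fun v => if h : ∃ i : Fin T, Ψ i = v then c h.choose else Classical.arbitrary R, ?_⟩
    intro i
    have h1 : Ψ i ≤ E := (hΨ (Nat.zero_le _)).trans h0
    have h2 : ((Fin.ofNat (E + 1) (Ψ i) : Fin (E + 1)) : ℕ) = Ψ i :=
      Nat.mod_eq_of_lt (by omega)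
    have h3 : ∃ j : Fin T, Ψ j = ((Fin.ofNat (E + 1) (Ψ i) : Fin (E + 1)) : ℕ) := ⟨i, h2.symm⟩
    simp only
    rw [dif_pos h3]
    exact hc _ _ (h3.choose_spec.trans h2)
  obtain ⟨G, hG⟩ := hG
  refine ⟨⟨fun v => ⟨Nat.find (hex v), hθ v⟩, G⟩, ?_⟩
  funext i
  have h1 : Ψ i ≤ E := (hΨ (Nat.zero_le _)).trans h0
  have hcard : (univ.filter (fun v : Fin (E + 1) => (i : ℕ) < Nat.find (hex v))).card = Ψ i := by
    simp only [hiff]
    rw [Fin.card_filter_val_lt]
    exact min_eq_right (by omega)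
  show G (Fin.ofNat (E + 1)
    (univ.filter (fun v : Fin (E + 1) => (i : ℕ) < Nat.find (hex v))).card) = c i
  rw [hcard]
  exact hG i

theorem count_codes {R : Type} [Fintype R] [DecidableEq R] [Nonempty R] (T E : ℕ)
    (F : Finset (Fin T → R))
    (hF : ∀ c ∈ F, ∃ Ψ : ℕ → ℕ, Antitone Ψ ∧ Ψ 0 ≤ E ∧ ∀ i j : Fin T, Ψ i = Ψ j → c i = c j) :
    F.card ≤ ((T + 1) * Fintype.card R) ^ (E + 1) := by
  classical
  have hsub : F ⊆ Finset.univ.image (cntDec (R := R) T E) := by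
    intro c hcF
    obtain ⟨Ψ, hΨ, h0, hc⟩ := hF c hcF
    obtain ⟨x, hx⟩ := cntDec_spec T E c Ψ hΨ h0 hc
    exact Finset.mem_image.2 ⟨x, Finset.mem_univ _, hx⟩
  refine (Finset.card_le_card hsub).trans (Finset.card_image_le.trans ?_)
  rw [Finset.card_univ, Fintype.card_prod, Fintype.card_fun, Fintype.card_fun, Fintype.card_fin,
    Fintype.card_fin, mul_pow]

end Pool.Agent.Helper497.SE
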