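import Pool.Agent.Helper497.SE.Base
import Pool.Agent.Helper497.SE.RvFacts

set_option autoImplicit false

namespace Pool.Agent.Helper497.SE

open Finset

variable {N k p : ℕ}



theorem Ed_symm (S : Str N k p) (h : Fin p → FreeGroup (Fin N)) (t : ℕ) (α β : Fin p)
    (hE : S.Ed h t α β) : S.Ed h t β α := by
  obtain ⟨d, h1, h2, h3, h4, h5, h6⟩ := hE
  refine ⟨rv d, ?_, ?_, ?_, h4.symm, ?_, h6.symm⟩
  · rw [src_rv, h2]
  · rw [tgt_rv, h1]
  · rw [e_rv, h3, inv_one]
  · rw [← h4]; exact h5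
theorem Cp_self (S : Str N k p) (h : Fin p → FreeGroup (Fin N)) (t : ℕ) (α : Fin p) :
    α ∈ S.Cp h t α := by
  classical
  unfold Str.Cp
  simp only [mem_filter, mem_univ, true_and]
  exact Relation.ReflTransGen.refl
theorem mem_Cp_aux (S : Str N k p) (h : Fin p → FreeGroup (Fin N)) (t : ℕ) (α β : Fin p) :
    β ∈ S.Cp h t α ↔ Relation.ReflTransGen (S.Ed h t) α β := by
  classical
  unfold Str.Cp
  simp only [mem_filter, mem_univ, true_and]
theorem RT_symm_aux (S : Str N k p) (h : Fin p → FreeGroup (Fin N)) (t : ℕ) (α β : Fin p)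
    (hr : Relation.ReflTransGen (S.Ed h t) α β) : Relation.ReflTransGen (S.Ed h t) β α := by
  induction hr with
  | refl => exact Relation.ReflTransGen.refl
  | tail _ hE ih => exact Relation.ReflTransGen.head (Ed_symm S h t _ _ hE) ih
theorem Cp_eq (S : Str N k p) (h : Fin p → FreeGroup (Fin N)) (t : ℕ) (α β : Fin p)
    (hβ : β ∈ S.Cp h t α) : S.Cp h t β = S.Cp h t α := by
  rw [mem_Cp_aux] at hβ
  ext γ
  rw [mem_Cp_aux, mem_Cp_aux]
  exact ⟨fun hg => hβ.trans hg, fun hg => (RT_symm_aux S h t _ _ hβ).trans hg⟩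
theorem Cp_nx (S : Str N k p) (h : Fin p → FreeGroup (Fin N)) (t : ℕ) (α β : Fin p)
    (hβ : β ∈ S.Cp h t α) : nx h t β = nx h t α := by
  rw [mem_Cp_aux] at hβ
  induction hβ with
  | refl => rfl
  | tail _ hE ih =>
    obtain ⟨d, h1, h2, h3, h4, h5, h6⟩ := hE
    rw [← h4, ih]

end Pool.Agent.Helper497.SE
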