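import Pool.Agent.Helper497.SE.Base

set_option autoImplicit false

namespace Pool.Agent.Helper497.SE

open Finset

variable {N k p : ℕ}


theorem head_inv_h291 (e : FreeGroup (Fin N)) :
    (e⁻¹).toWord.head? = e.toWord.getLast?.map (fun g : Z N => (g.1, !g.2)) := by
  rw [FreeGroup.toWord_inv]
  unfold FreeGroup.invRev
  rw [List.head?_reverse, List.getLast?_map]

theorem left_toWord_h291 (e : FreeGroup (Fin N)) (a : Z N) :
    ((lt a)⁻¹ * e).toWord = if e.toWord.head? = some a then e.toWord.tail
      else inv a :: e.toWord := by
  have h1 : (lt a)⁻¹ * e = FreeGroup.mk (inv a :: e.toWord) := by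
    conv_lhs => rw [← FreeGroup.mk_toWord (x := e)]
    unfold lt
    rw [FreeGroup.inv_mk, FreeGroup.mul_mk]
    rfl
  rw [h1, FreeGroup.toWord_mk, FreeGroup.reduce.cons, FreeGroup.reduce_toWord]
  rcases hw : e.toWord with _ | ⟨hd, tl⟩
  · simp
  · simp only [List.head?_cons, List.tail_cons, Option.some.injEq]
    by_cases h : hd = a
    · subst h
      simp [inv]
    · have h' : ¬ ((inv a).1 = hd.1 ∧ (inv a).2 = !hd.2) := by
        rintro ⟨h2, h3⟩
        apply h
        unfold inv at h2 h3
        simp only at h2 h3
        exact Prod.ext h2.symm (by rw [Bool.not_inj_iff] at h3; exact h3.symm)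
      rw [if_neg h, if_neg h']

theorem left_norm_h291 (e : FreeGroup (Fin N)) (a : Z N) :
    ((((lt a)⁻¹ * e).norm : ℕ) : ℤ) = e.norm + if e.toWord.head? = some a then -1 else 1 := by
  unfold FreeGroup.norm
  rw [left_toWord_h291]
  by_cases h : e.toWord.head? = some a
  · rw [if_pos h, if_pos h]
    rcases hw : e.toWord with _ | ⟨hd, tl⟩
    · rw [hw] at h; simp at h
    · simp
  · rw [if_neg h, if_neg h]
    simp

theorem right_norm_h291 (e : FreeGroup (Fin N)) (b : Z N) :
    (((e * lt b).norm : ℕ) : ℤ) = e.norm + if (e⁻¹).toWord.head? = some b then -1 else 1 := by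
  have h := left_norm_h291 e⁻¹ b
  rw [FreeGroup.norm_inv_eq] at h
  rw [← h, ← FreeGroup.norm_inv_eq, mul_inv_rev]

theorem norm_step (e : FreeGroup (Fin N)) (x y : Option (Z N)) :
    (e.norm : ℤ) + cc e x y + cc e⁻¹ y x ≤ (((ol x)⁻¹ * e * ol y).norm : ℤ) := by
  rcases x with _ | a <;> rcases y with _ | b
  · simp [ol, cc]
  · have h := right_norm_h291 e b
    simp only [ol, Option.elim, inv_one, one_mul]
    rw [h]
    unfold cc
    simp only [reduceCtorEq, if_false, if_true]
    split_ifs <;> simp_all
  · have h := left_norm_h291 e a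
    simp only [ol, Option.elim, mul_one]
    rw [h]
    unfold cc
    simp only [reduceCtorEq, if_false, if_true]
    split_ifs <;> simp_all
  · simp only [ol, Option.elim]
    rw [right_norm_h291, left_norm_h291]
    unfold cc
    simp only [reduceCtorEq, if_false]
    by_cases he : e = 1
    · subst he
      have h1 : ((lt a)⁻¹ * (1 : FreeGroup (Fin N)))⁻¹.toWord.head? = some a := by
        rw [head_inv_h291, left_toWord_h291]
        simp [inv]
      rw [h1]
      simp only [FreeGroup.toWord_one, List.head?_nil, reduceCtorEq, if_false, inv_one, true_and,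
        Option.some.injEq]
      by_cases hab : a = b
      · subst hab
        simp
      · have hba : ¬ b = a := fun h => hab h.symm
        simp [hab, hba]
    · have he' : e⁻¹ ≠ 1 := fun h => he (inv_eq_one.mp h)
      simp only [he, he', false_and, if_false]
      have hw : e.toWord ≠ [] := fun h => he (FreeGroup.toWord_eq_nil_iff.mp h)
      have key : ((lt a)⁻¹ * e)⁻¹.toWord.head? = some b → (e⁻¹).toWord.head? = some b := by
        intro h
        rw [head_inv_h291, left_toWord_h291] at h
        rw [head_inv_h291]
        rcases hw' : e.toWord with _ | ⟨hd, tl⟩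
        · exact absurd hw' hw
        · rw [hw'] at h
          simp only [List.head?_cons, List.tail_cons, Option.some.injEq] at h
          by_cases hda : hd = a
          · rw [if_pos hda] at h
            rcases tl with _ | ⟨c, tl⟩
            · simp at h
            · rw [List.getLast?_cons_cons]
              exact h
          · rw [if_neg hda, List.getLast?_cons_cons] at h
            exact h
      by_cases hk : ((lt a)⁻¹ * e)⁻¹.toWord.head? = some b
      · rw [if_pos hk, if_pos (key hk)]
      · rw [if_neg hk]
        split_ifs <;> omega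

end Pool.Agent.Helper497.SE
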