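import Pool.Agent.Helper497.SE.Base
import Pool.Agent.Helper497.SE.NStep
import Pool.Agent.Helper497.SE.PosFacts
import Pool.Agent.Helper497.SE.RvFacts

set_option autoImplicit false

namespace Pool.Agent.Helper497.SE

open Finset

variable {N k p : ℕ}





theorem e_step (S : Str N k p) (h : Fin p → FreeGroup (Fin N)) (t : ℕ) (d : D k) :
    ((S.e (pos h t) d).norm : ℤ) + S.C h t d + S.C h t (rv d) ≤ ((S.e (pos h (t + 1)) d).norm : ℤ) := by
  have key : S.e (pos h (t + 1)) d =
      (ol (nx h t (S.src d)))⁻¹ * S.e (pos h t) d * ol (nx h t (S.tgt d)) := by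
    unfold Str.e
    rw [pos_succ, pos_succ, mul_inv_rev]
    simp only [mul_assoc]
  have h1 := norm_step (S.e (pos h t) d) (nx h t (S.src d)) (nx h t (S.tgt d))
  rw [key]
  unfold Str.C
  rw [e_rv, src_rv, tgt_rv]
  exact h1
theorem f_step (S : Str N k p) (h : Fin p → FreeGroup (Fin N)) (t : ℕ) :
    (S.f (pos h t) : ℤ) + ∑ d : D k, S.C h t d ≤ (S.f (pos h (t + 1)) : ℤ) := by
  unfold Str.f
  push_cast
  rw [Fintype.sum_prod_type, ← Finset.sum_add_distrib]
  refine Finset.sum_le_sum fun s _ => ?_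
  rw [Fintype.sum_bool]
  have h1 := e_step S h t (s, true)
  have h2 : rv (s, true) = (s, false) := rfl
  rw [h2] at h1
  linarith

end Pool.Agent.Helper497.SE
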