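import Pool.Agent.Helper497.SE.Base
import Pool.Agent.Helper497.SE.PosFacts

set_option autoImplicit false

namespace Pool.Agent.Helper497.SE

open Finset

variable {N k p : ℕ}



/-- one time step: the positions at time `t+1` are determined by those at time `t` and the free
letters -/
theorem fiber (S : Str N k p) (allow : Fin p → Finset (Z N)) (q : ℕ)
    (hinv : ∀ α, ∀ x ∈ allow α, inv x ∈ allow α) (hq : ∀ α, (allow α).card ≤ q + 1) (t : ℕ)
    (ρ : Fin p → Rl k p) (hρ : ∀ α β, ρ α = some (Sum.inr β) → ρ β = some (Sum.inr β))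
    (H : Finset (Fin p → FreeGroup (Fin N))) (hall : ∀ h ∈ H, Allowed allow h)
    (hdec : ∀ h ∈ H, ∀ α, nx h t α = S.dec (pos h t) ρ (nx h t) α)
    (hmov : ∀ h ∈ H, ∀ β ∈ Rs ρ, nx h t β ≠ none) :
    (H.image (fun h => pos h (t + 1))).card ≤
      (H.image (fun h => pos h t)).card * (if t = 0 then q + 1 else q) ^ (Rs ρ).card := by
  classical
  obtain ⟨M, hM⟩ : ∃ M, M = (if t = 0 then q + 1 else q) := ⟨_, rfl⟩
  rw [← hM]
  let L : (Fin p → FreeGroup (Fin N)) → Fin p → Finset (Z N) := fun c β =>
    (allow β).filter (fun x => t = 0 ∨ ∀ x0, (c β).toWord[t - 1]? = some x0 → x ≠ inv x0)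
  -- letters used
  have hL : ∀ h ∈ H, ∀ β ∈ Rs ρ, ∃ x, nx h t β = some x ∧ x ∈ L (pos h t) β := by
    intro h hh β hβ
    obtain ⟨x, hx⟩ := Option.ne_none_iff_exists'.mp (hmov h hh β hβ)
    refine ⟨x, hx, ?_⟩
    refine Finset.mem_filter.mpr ⟨nx_allowed (hall h hh) hx, ?_⟩
    rcases Nat.eq_zero_or_pos t with h0 | h0
    · exact Or.inl h0
    · right
      intro x0 hx0
      rw [toWord_pos, List.getElem?_take_of_lt (by omega)] at hx0
      have h1 : nx h (t - 1) β = some x0 := hx0
      have h2 : nx h ((t - 1) + 1) β = some x := by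
        rw [Nat.sub_add_cancel h0]; exact hx
      exact nx_red h (t - 1) β x0 x h1 h2
  have hLcard : ∀ c ∈ H.image (fun h => pos h t), ∀ β ∈ Rs ρ, (L c β).card ≤ M := by
    intro c hc β hβ
    obtain ⟨h, hh, rfl⟩ := Finset.mem_image.mp hc
    rcases Nat.eq_zero_or_pos t with h0 | h0
    · rw [hM, if_pos h0]
      exact (Finset.card_filter_le _ _).trans (hq β)
    · rw [hM, if_neg (by omega)]
      have h1 : nx h (t - 1) β ≠ none := nx_none_mono h (Nat.sub_le t 1) β (hmov h hh β hβ)
      obtain ⟨x0, hx0⟩ := Option.ne_none_iff_exists'.mp h1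
      have h2 : inv x0 ∈ allow β := hinv β x0 (nx_allowed (hall h hh) hx0)
      have h3 : L (pos h t) β ⊆ (allow β).erase (inv x0) := by
        intro x hx
        rcases Finset.mem_filter.mp hx with ⟨h4, h5⟩
        refine Finset.mem_erase.mpr ⟨?_, h4⟩
        rcases h5 with h5 | h5
        · omega
        · apply h5
          rw [toWord_pos, List.getElem?_take_of_lt (by omega)]
          exact hx0
      have h6 := Finset.card_le_card h3
      rw [Finset.card_erase_of_mem h2] at h6
      have h7 := hq β
      omega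
  -- fibres
  have hfib : ∀ c ∈ H.image (fun h => pos h t),
      ((H.filter (fun h => pos h t = c)).image (fun h => pos h (t + 1))).card ≤ M ^ (Rs ρ).card := by
    intro c hc
    let Pi : Finset (Fin p → Option (Z N)) :=
      Fintype.piFinset (fun β => if β ∈ Rs ρ then (L c β).image some else {none})
    have hPi : Pi.card ≤ M ^ (Rs ρ).card := by
      rw [Fintype.card_piFinset]
      calc ∏ β, (if β ∈ Rs ρ then (L c β).image some else {none} : Finset (Option (Z N))).card
          ≤ ∏ β, (if β ∈ Rs ρ then M else 1) := by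
            apply Finset.prod_le_prod'
            intro β _
            by_cases hβ : β ∈ Rs ρ
            · rw [if_pos hβ, if_pos hβ]
              exact Finset.card_image_le.trans (hLcard c hc β hβ)
            · rw [if_neg hβ, if_neg hβ]
              simp
        _ = M ^ (Rs ρ).card := by
            rw [Finset.prod_ite_mem, Finset.univ_inter, Finset.prod_const]
    have hsub : (H.filter (fun h => pos h t = c)).image (fun h => pos h (t + 1)) ⊆
        Pi.image (fun l α => c α * ol (S.dec c ρ l α)) := by
      intro d hd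
      obtain ⟨h, hh, rfl⟩ := Finset.mem_image.mp hd
      rcases Finset.mem_filter.mp hh with ⟨hhH, hhc⟩
      refine Finset.mem_image.mpr ⟨fun β => if β ∈ Rs ρ then nx h t β else none, ?_, ?_⟩
      · refine Fintype.mem_piFinset.mpr (fun β => ?_)
        by_cases hβ : β ∈ Rs ρ
        · simp only [if_pos hβ]
          obtain ⟨x, hx, hxL⟩ := hL h hhH β hβ
          rw [hx]
          rw [hhc] at hxL
          exact Finset.mem_image_of_mem some hxL
        · simp only [if_neg hβ]
          exact Finset.mem_singleton_self _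
      · funext α
        show c α * ol (S.dec c ρ (fun β => if β ∈ Rs ρ then nx h t β else none) α) = pos h (t + 1) α
        rw [pos_succ, hdec h hhH α, hhc]
        congr 2
        unfold Str.dec
        rcases hρα : ρ α with _ | (d | β)
        · rfl
        · rfl
        · have hβ : β ∈ Rs ρ := Finset.mem_filter.mpr ⟨Finset.mem_univ _, hρ α β hρα⟩
          show (if β ∈ Rs ρ then nx h t β else none) = nx h t β
          rw [if_pos hβ]
    exact (Finset.card_le_card hsub).trans (Finset.card_image_le.trans hPi)
  have hcov : H.image (fun h => pos h (t + 1)) ⊆ (H.image (fun h => pos h t)).biUnion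
      (fun c => (H.filter (fun h => pos h t = c)).image (fun h => pos h (t + 1))) := by
    intro d hd
    obtain ⟨h, hh, rfl⟩ := Finset.mem_image.mp hd
    refine Finset.mem_biUnion.mpr ⟨pos h t, Finset.mem_image_of_mem _ hh, ?_⟩
    exact Finset.mem_image.mpr ⟨h, Finset.mem_filter.mpr ⟨hh, rfl⟩, rfl⟩
  exact (Finset.card_le_card hcov).trans (Finset.card_biUnion_le_card_mul _ _ _ hfib)


end Pool.Agent.Helper497.SE
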