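import Pool.Agent.Helper497.SE.Base
import Pool.Agent.Helper497.SE.PosFacts
import Pool.Agent.Helper497.SE.Fiber

set_option autoImplicit false

namespace Pool.Agent.Helper497.SE

open Finset

variable {N k p : ℕ}




theorem count_fixed_prod (p q : ℕ) (hq1 : 1 ≤ q) (r : ℕ → ℕ) (hr : ∀ t, r t ≤ p) (T : ℕ) :
    ∏ t ∈ range T, (if t = 0 then q + 1 else q) ^ (r t) ≤ 2 ^ p * q ^ (∑ t ∈ range T, r t) := by
  cases T with
  | zero =>
    simp only [range_zero, prod_empty, sum_empty, pow_zero, mul_one]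
    exact Nat.one_le_two_pow
  | succ n =>
    rw [prod_range_succ', sum_range_succ', pow_add]
    have h1 : ∏ t ∈ range n, (if t + 1 = 0 then q + 1 else q) ^ (r (t + 1)) =
        q ^ (∑ t ∈ range n, r (t + 1)) := by
      rw [← prod_pow_eq_pow_sum]
      refine prod_congr rfl fun t _ => ?_
      rw [if_neg (Nat.succ_ne_zero t)]
    have h2 : (if 0 = 0 then q + 1 else q) ^ (r 0) ≤ 2 ^ p * q ^ (r 0) := by
      rw [if_pos rfl]
      calc (q + 1) ^ (r 0) ≤ (2 * q) ^ (r 0) := Nat.pow_le_pow_left (by omega) _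
        _ = 2 ^ (r 0) * q ^ (r 0) := mul_pow _ _ _
        _ ≤ 2 ^ p * q ^ (r 0) :=
          Nat.mul_le_mul_right _ (Nat.pow_le_pow_right (by norm_num) (hr 0))
    rw [h1]
    calc q ^ (∑ t ∈ range n, r (t + 1)) * (if 0 = 0 then q + 1 else q) ^ (r 0)
        ≤ q ^ (∑ t ∈ range n, r (t + 1)) * (2 ^ p * q ^ (r 0)) := Nat.mul_le_mul_left _ h2
      _ = 2 ^ p * (q ^ (∑ t ∈ range n, r (t + 1)) * q ^ (r 0)) := by ring

theorem count_fixed (S : Str N k p) (allow : Fin p → Finset (Z N)) (q : ℕ) (hq1 : 1 ≤ q)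
    (hinv : ∀ α, ∀ x ∈ allow α, inv x ∈ allow α) (hq : ∀ α, (allow α).card ≤ q + 1) (T : ℕ)
    (ρ : ℕ → Fin p → Rl k p)
    (hρ : ∀ t < T, ∀ α β, ρ t α = some (Sum.inr β) → ρ t β = some (Sum.inr β))
    (H : Finset (Fin p → FreeGroup (Fin N))) (hall : ∀ h ∈ H, Allowed allow h)
    (hT : ∀ h ∈ H, ∀ α, (h α).norm ≤ T)
    (hdec : ∀ h ∈ H, ∀ t < T, ∀ α, nx h t α = S.dec (pos h t) (ρ t) (nx h t) α)
    (hmov : ∀ h ∈ H, ∀ t < T, ∀ β ∈ Rs (ρ t), nx h t β ≠ none) :
    H.card ≤ 2 ^ p * q ^ (∑ t ∈ range T, (Rs (ρ t)).card) := by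
  have key : ∀ m ≤ T, (H.image (fun h => pos h m)).card ≤
      ∏ t ∈ range m, (if t = 0 then q + 1 else q) ^ (Rs (ρ t)).card := by
    intro m
    induction m with
    | zero =>
      intro _
      rw [range_zero, prod_empty, card_le_one]
      intro a ha b hb
      obtain ⟨h, _, rfl⟩ := mem_image.mp ha
      obtain ⟨h', _, rfl⟩ := mem_image.mp hb
      rw [pos_zero, pos_zero]
    | succ m ih =>
      intro hm
      have h1 := ih (by omega)
      have h2 := fiber S allow q hinv hq m (ρ m) (hρ m (by omega)) H hall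
        (fun h hh => hdec h hh m (by omega)) (fun h hh => hmov h hh m (by omega))
      rw [prod_range_succ]
      exact h2.trans (Nat.mul_le_mul_right _ h1)
  have hsub : H ⊆ H.image (fun h => pos h T) := by
    intro h hh
    exact mem_image.mpr ⟨h, hh, pos_eq h T (hT h hh)⟩
  have hr : ∀ t, (Rs (ρ t)).card ≤ p := by
    intro t
    have h1 := card_le_univ (Rs (ρ t))
    rwa [Fintype.card_fin] at h1
  exact (card_le_card hsub).trans ((key T (le_refl T)).trans
    (count_fixed_prod p q hq1 (fun t => (Rs (ρ t)).card) hr T))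

end Pool.Agent.Helper497.SE
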