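import Pool.Agent.Helper497.SE.Base
import Pool.Agent.Helper497.SE.PosFacts
import Pool.Agent.Helper497.SE.CFacts
import Pool.Agent.Helper497.SE.Anti

set_option autoImplicit false

namespace Pool.Agent.Helper497.SE

open Finset

variable {N k p : ℕ}





theorem good_exists (S : Str N k p) (h : Fin p → FreeGroup (Fin N)) :
    ∃ dd : Fin p → Rl k p, S.Good h dd := by
  classical
  have key : ∀ α : Fin p, ∃ r : Rl k p, ∀ t, α ∈ S.Ng h t →
      ∃ d, r = some (Sum.inl d) ∧ S.src d = α ∧ S.C h t d = -1 := by
    intro α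
    by_cases hE : ∃ t, α ∈ S.Ng h t
    · obtain ⟨t1, ht1⟩ := hE
      have hb : ∀ t, α ∈ S.Ng h t → t ≤ (h α).toWord.length := by
        intro t ht
        unfold Str.Ng at ht
        rw [Finset.mem_filter] at ht
        have h1 : nx h t α ≠ none := ht.2.1
        unfold nx at h1
        rw [ne_eq, List.getElem?_eq_none_iff, not_le] at h1
        exact h1.le
      have hsp : α ∈ S.Ng h (Nat.findGreatest (fun t => α ∈ S.Ng h t) (h α).toWord.length) :=
        Nat.findGreatest_spec (P := fun t => α ∈ S.Ng h t) (hb t1 ht1) ht1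
      set t0 := Nat.findGreatest (fun t => α ∈ S.Ng h t) (h α).toWord.length with ht0
      have hsp2 := hsp
      unfold Str.Ng at hsp2
      rw [Finset.mem_filter] at hsp2
      obtain ⟨-, hn0, d, hd1, hd2⟩ := hsp2
      refine ⟨some (Sum.inl d), fun t ht => ⟨d, rfl, hd1, ?_⟩⟩
      have hle : t ≤ t0 := Nat.le_findGreatest (hb t ht) ht
      have hm := C_mono S h hle d (by rw [hd1]; exact hn0)
      rcases C_cases S h t d with h1 | h1 | h1
      · exact h1
      · omega
      · omega
    · exact ⟨none, fun t ht => absurd ⟨t, ht⟩ hE⟩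
  choose dd hdd using key
  exact ⟨dd, fun α t ht => hdd α t ht⟩

end Pool.Agent.Helper497.SE
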