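import Pool.Agent.Helper497.SE.Base
import Pool.Agent.Helper497.SE.Anti
import Pool.Agent.Helper497.SE.CpFacts

set_option autoImplicit false

namespace Pool.Agent.Helper497.SE

open Finset

variable {N k p : ℕ}




theorem Psi_zero_cards497 (S : Str N k p) (h : Fin p → FreeGroup (Fin N)) (t : ℕ) :
    (Mv h t).card ≤ p ∧ (S.Ng h t).card ≤ p ∧ ∑ α, (S.Cp h t α).card ≤ p * p := by
  have hc : ∀ A : Finset (Fin p), A.card ≤ p := fun A => by
    simpa using A.card_le_univ
  refine ⟨hc _, hc _, ?_⟩
  calc ∑ α, (S.Cp h t α).card ≤ ∑ _α : Fin p, p := Finset.sum_le_sum fun α _ => hc _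
    _ = p * p := by simp

theorem Psi_step497 (S : Str N k p) (h : Fin p → FreeGroup (Fin N)) (t : ℕ) :
    S.Psi h (t + 1) ≤ S.Psi h t ∧ (S.Psi h (t + 1) = S.Psi h t →
      Mv h (t + 1) = Mv h t ∧ S.Ng h (t + 1) = S.Ng h t ∧
        ∀ α, S.Cp h (t + 1) α = S.Cp h t α) := by
  have hM := Mv_anti h t
  have hN := Ng_anti S h t
  have hMc := Finset.card_le_card hM
  have hNc := Finset.card_le_card hN
  by_cases heq : Mv h (t + 1) = Mv h t ∧ S.Ng h (t + 1) = S.Ng h t
  · have hCp := fun α => Cp_anti S h t heq.2 α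
    have hle : ∀ α ∈ (Finset.univ : Finset (Fin p)), (S.Cp h (t + 1) α).card ≤ (S.Cp h t α).card :=
      fun α _ => Finset.card_le_card (hCp α)
    refine ⟨?_, fun he => ⟨heq.1, heq.2, ?_⟩⟩
    · unfold Str.Psi
      rw [heq.1, heq.2]
      exact Nat.add_le_add_left (Finset.sum_le_sum hle) _
    · unfold Str.Psi at he
      rw [heq.1, heq.2] at he
      have hs := Nat.add_left_cancel he
      have := (Finset.sum_eq_sum_iff_of_le hle).1 hs
      intro α
      exact Finset.eq_of_subset_of_card_le (hCp α) (this α (Finset.mem_univ α)).ge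
  · have hlt : (Mv h (t + 1)).card + (S.Ng h (t + 1)).card + 1 ≤
        (Mv h t).card + (S.Ng h t).card := by
      by_contra hcon
      apply heq
      constructor
      · exact Finset.eq_of_subset_of_card_le hM (by omega)
      · exact Finset.eq_of_subset_of_card_le hN (by omega)
    have hb := (Psi_zero_cards497 S h (t + 1)).2.2
    have hlt2 : S.Psi h (t + 1) < S.Psi h t := by
      unfold Str.Psi
      have h1 := Nat.mul_le_mul_left (p * p + 1) hlt
      rw [Nat.mul_add] at h1
      have h2 : 0 ≤ ∑ α, (S.Cp h t α).card := Nat.zero_le _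
      omega
    exact ⟨hlt2.le, fun he => absurd he hlt2.ne⟩

theorem rule_congr497 (S : Str N k p) (h : Fin p → FreeGroup (Fin N)) (dd : Fin p → Rl k p)
    (t u : ℕ) (hM : Mv h t = Mv h u) (hN : S.Ng h t = S.Ng h u)
    (hC : ∀ α, S.Cp h t α = S.Cp h u α) : S.rule dd h t = S.rule dd h u := by
  funext α
  have hn : (nx h t α = none) ↔ (nx h u α = none) := by
    have h1 : α ∈ Mv h t ↔ α ∈ Mv h u := by rw [hM]
    unfold Mv at h1
    simp only [Finset.mem_filter, Finset.mem_univ, true_and] at h1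
    exact not_iff_not.1 h1
  unfold Str.rule
  simp only [hn, hN, hC]

theorem Psi_zero (S : Str N k p) (h : Fin p → FreeGroup (Fin N)) :
    S.Psi h 0 ≤ (p * p + 1) * (2 * p) + p * p := by
  obtain ⟨h1, h2, h3⟩ := Psi_zero_cards497 S h 0
  unfold Str.Psi
  exact Nat.add_le_add (Nat.mul_le_mul_left _ (by omega)) h3
theorem Psi_anti (S : Str N k p) (h : Fin p → FreeGroup (Fin N)) : Antitone (S.Psi h) :=
  antitone_nat_of_succ_le fun t => (Psi_step497 S h t).1
theorem Psi_rule (S : Str N k p) (h : Fin p → FreeGroup (Fin N)) (dd : Fin p → Rl k p) (s t : ℕ)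
    (hst : S.Psi h s = S.Psi h t) : S.rule dd h s = S.rule dd h t := by
  have key : ∀ (s d : ℕ), S.Psi h s = S.Psi h (s + d) → S.rule dd h s = S.rule dd h (s + d) := by
    intro s d
    induction d with
    | zero => intro _; rfl
    | succ d ih =>
      intro he
      have h1 : S.Psi h (s + d) ≤ S.Psi h s := Psi_anti S h (Nat.le_add_right s d)
      have h2 : S.Psi h (s + (d + 1)) ≤ S.Psi h (s + d) := (Psi_step497 S h (s + d)).1
      have h3 : S.Psi h (s + d) = S.Psi h s := by omega
      rw [ih h3.symm]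
      obtain ⟨a1, a2, a3⟩ := (Psi_step497 S h (s + d)).2 (by
        change S.Psi h (s + (d + 1)) = S.Psi h (s + d); omega)
      exact rule_congr497 S h dd _ _ a1.symm a2.symm fun α => (a3 α).symm
  rcases le_total s t with hle | hle
  · obtain ⟨d, rfl⟩ := Nat.exists_eq_add_of_le hle
    exact key s d hst
  · obtain ⟨d, rfl⟩ := Nat.exists_eq_add_of_le hle
    exact (key t d hst.symm).symm

end Pool.Agent.Helper497.SE
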