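import Pool.Agent.Helper497.SE.Base
import Pool.Agent.Helper497.SE.CFacts
import Pool.Agent.Helper497.SE.CpFacts

set_option autoImplicit false

namespace Pool.Agent.Helper497.SE

open Finset

variable {N k p : ℕ}




/-- the next letters are decoded from the positions, the rules and the free letters -/
theorem rule_dec (S : Str N k p) (h : Fin p → FreeGroup (Fin N)) (dd : Fin p → Rl k p)
    (hdd : S.Good h dd) (t : ℕ) (α : Fin p) :
    nx h t α = S.dec (pos h t) (S.rule dd h t) (nx h t) α := by
  have key : ∀ β, β ∈ S.Ng h t → ∃ d, dd β = some (Sum.inl d) ∧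
      nx h t β = (S.e (pos h t) d).toWord.head? := by
    intro β hβ
    obtain ⟨d, hd, hs, hc⟩ := hdd β t hβ
    refine ⟨d, hd, ?_⟩
    rw [← hs]
    exact C_neg_head S h t d hc
  by_cases h1 : nx h t α = none
  · have hr : S.rule dd h t α = none := by
      unfold Str.rule
      rw [if_pos h1]
    simp only [Str.dec, hr]
    exact h1
  by_cases h2 : α ∈ S.Ng h t
  · obtain ⟨d, hd, hx⟩ := key α h2
    have hr : S.rule dd h t α = some (Sum.inl d) := by
      unfold Str.rule
      rw [if_neg h1, if_pos h2, hd]
    simp only [Str.dec, hr]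
    exact hx
  by_cases h3 : (S.Cp h t α ∩ S.Ng h t).Nonempty
  · have hm := Finset.min'_mem _ h3
    rw [Finset.mem_inter] at hm
    obtain ⟨d, hd, hx⟩ := key _ hm.2
    have hr : S.rule dd h t α = some (Sum.inl d) := by
      unfold Str.rule
      rw [if_neg h1, if_neg h2, dif_pos h3, hd]
    simp only [Str.dec, hr]
    rw [← hx]
    exact (Cp_nx S h t α _ hm.1).symm
  · have h4 : (S.Cp h t α).Nonempty := ⟨α, Cp_self S h t α⟩
    have hr : S.rule dd h t α = some (Sum.inr ((S.Cp h t α).min' h4)) := by
      unfold Str.rule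
      rw [if_neg h1, if_neg h2, dif_neg h3, dif_pos h4]
    simp only [Str.dec, hr]
    exact (Cp_nx S h t α _ (Finset.min'_mem _ h4)).symm

end Pool.Agent.Helper497.SE
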