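import Pool.Agent.Helper497.SE.Base
import Pool.Agent.Helper497.SE.CpFacts

set_option autoImplicit false

namespace Pool.Agent.Helper497.SE

open Finset

variable {N k p : ℕ}



/-- if `α` has a free rule then its component is free, closed and its minimum `β` is in `Rs` -/
theorem rule_inr (S : Str N k p) (h : Fin p → FreeGroup (Fin N)) (dd : Fin p → Rl k p)
    (hdd : S.Good h dd) (t : ℕ) (α β : Fin p) (hr : S.rule dd h t α = some (Sum.inr β)) :
    nx h t α ≠ none ∧ β ∈ S.Cp h t α ∧ (∀ γ ∈ S.Cp h t α, β ≤ γ) ∧ (∀ γ ∈ S.Cp h t α, γ ∉ S.Ng h t) ∧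
      S.rule dd h t β = some (Sum.inr β) := by
  unfold Str.rule at hr
  by_cases h1 : nx h t α = none
  · rw [if_pos h1] at hr
    exact absurd hr (by simp)
  rw [if_neg h1] at hr
  by_cases h2 : α ∈ S.Ng h t
  · rw [if_pos h2] at hr
    obtain ⟨d, hd, _⟩ := hdd α t h2
    rw [hd] at hr
    exact absurd hr (by simp)
  rw [if_neg h2] at hr
  by_cases h3 : (S.Cp h t α ∩ S.Ng h t).Nonempty
  · rw [dif_pos h3] at hr
    have hm := Finset.min'_mem _ h3
    obtain ⟨d, hd, _⟩ := hdd _ t (Finset.mem_inter.1 hm).2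
    rw [hd] at hr
    exact absurd hr (by simp)
  rw [dif_neg h3] at hr
  have h4 : (S.Cp h t α).Nonempty := ⟨α, Cp_self S h t α⟩
  rw [dif_pos h4] at hr
  have hβ : (S.Cp h t α).min' h4 = β := Sum.inr.inj (Option.some.inj hr)
  have hmem : β ∈ S.Cp h t α := by
    rw [← hβ]
    exact Finset.min'_mem _ h4
  have hle : ∀ γ ∈ S.Cp h t α, β ≤ γ := by
    intro γ hγ
    rw [← hβ]
    exact Finset.min'_le _ _ hγ
  have hng : ∀ γ ∈ S.Cp h t α, γ ∉ S.Ng h t := fun γ hγ hγ' =>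
    h3 ⟨γ, Finset.mem_inter.2 ⟨hγ, hγ'⟩⟩
  refine ⟨h1, hmem, hle, hng, ?_⟩
  have e1 : S.Cp h t β = S.Cp h t α := Cp_eq S h t α β hmem
  have e2 : nx h t β ≠ none := by
    rw [Cp_nx S h t α β hmem]
    exact h1
  unfold Str.rule
  rw [if_neg e2, if_neg (hng β hmem)]
  have h5 : ¬ (S.Cp h t β ∩ S.Ng h t).Nonempty := by
    rw [e1]
    exact h3
  rw [dif_neg h5]
  have h6 : (S.Cp h t β).Nonempty := ⟨β, Cp_self S h t β⟩
  rw [dif_pos h6]
  congr 2
  apply le_antisymm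
  · exact Finset.min'_le _ _ (Cp_self S h t β)
  · apply hle
    rw [← e1]
    exact Finset.min'_mem _ h6

theorem Cp_closed (S : Str N k p) (h : Fin p → FreeGroup (Fin N)) (t : ℕ) (α : Fin p)
    (hα : nx h t α ≠ none) (hng : ∀ γ ∈ S.Cp h t α, γ ∉ S.Ng h t) (d : D k)
    (hd : S.src d ∈ S.Cp h t α) (he : S.e (pos h t) d = 1)
    (hx : nx h t (S.tgt d) = nx h t (S.src d)) : S.tgt d ∈ S.Cp h t α := by
  have h1 : nx h t (S.src d) = nx h t α := Cp_nx S h t α _ hd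
  have h2 : S.Ed h t (S.src d) (S.tgt d) :=
    ⟨d, rfl, rfl, he, hx.symm, by rw [h1]; exact hα, Or.inl (hng _ hd)⟩
  classical
  have h3 : Relation.ReflTransGen (S.Ed h t) α (S.src d) := by
    unfold Str.Cp at hd
    exact (Finset.mem_filter.1 hd).2
  unfold Str.Cp
  exact Finset.mem_filter.2 ⟨Finset.mem_univ _, h3.tail h2⟩

end Pool.Agent.Helper497.SE
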