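import Pool.Agent.Helper497.SE.Base
import Pool.Agent.Helper497.SE.PosFacts
import Pool.Agent.Helper497.SE.CFacts
import Pool.Agent.Helper497.SE.RvFacts
import Pool.Agent.Helper497.SE.EStep
import Pool.Agent.Helper497.SE.Closed

set_option autoImplicit false

namespace Pool.Agent.Helper497.SE

open Finset

variable {N k p : ℕ}







theorem hull (S : Str N k p) (allow : Fin p → Finset (Z N)) (hmin : S.Min allow)
    (h : Fin p → FreeGroup (Fin N)) (ha : Allowed allow h) (hnrm : S.Nrm h) (t : ℕ)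
    (U : Finset (Fin p)) (hU : U.Nonempty) (hmov : ∀ α ∈ U, nx h t α ≠ none) :
    (S.leave (pos h t) U).card ≠ 0 := by
  intro h0
  rw [Finset.card_eq_zero] at h0
  have hl : ∀ d : D k, S.src d ∈ U → S.tgt d ∈ U ∧ S.e (pos h t) d = 1 := by
    intro d hd
    by_contra hc
    have : d ∈ S.leave (pos h t) U := by
      unfold Str.leave
      rw [Finset.mem_filter]
      exact ⟨Finset.mem_univ _, hd, hc⟩
    rw [h0] at this
    exact absurd this (Finset.notMem_empty _)
  have hrv : ∀ j : ℕ, ∑ d ∈ univ.filter (fun d : D k => S.src d ∈ U), S.C h j (rv d) =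
      ∑ d ∈ univ.filter (fun d : D k => S.src d ∈ U), S.C h j d := by
    intro j
    refine Finset.sum_nbij' (fun d => rv d) (fun d => rv d) ?_ ?_ ?_ ?_ ?_
    · intro d hd
      rw [Finset.mem_filter] at hd ⊢
      refine ⟨Finset.mem_univ _, ?_⟩
      rw [src_rv]
      exact (hl d hd.2).1
    · intro d hd
      rw [Finset.mem_filter] at hd ⊢
      refine ⟨Finset.mem_univ _, ?_⟩
      rw [src_rv]
      exact (hl d hd.2).1
    · intro d _
      exact rv_rv d
    · intro d _
      exact rv_rv d
    · intro d _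
      rfl
  obtain ⟨Φ, hΦ⟩ : ∃ Φ : ℕ → ℤ, ∀ j, Φ j = ∑ d ∈ univ.filter (fun d : D k => S.src d ∈ U),
      ((S.e (pos h j) d).norm : ℤ) := ⟨_, fun _ => rfl⟩
  have hstep : ∀ j, j < t → Φ j ≤ Φ (j + 1) := by
    intro j hj
    have h1 := Finset.sum_le_sum (s := univ.filter (fun d : D k => S.src d ∈ U))
      (fun d _ => e_step S h j d)
    rw [Finset.sum_add_distrib, Finset.sum_add_distrib, hrv j, ← hΦ, ← hΦ] at h1
    have h2 := closed_sum S allow hmin h ha j U
      (fun α hα => nx_none_mono h hj.le α (hmov α hα)) (fun d hd _ _ => (hl d hd).1)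
    linarith
  have hmono : ∀ j, j ≤ t → Φ 0 ≤ Φ j := by
    intro j
    induction j with
    | zero => intro _; exact le_rfl
    | succ j ih => intro hj; exact (ih (by omega)).trans (hstep j (by omega))
  have ht : Φ t = 0 := by
    rw [hΦ]
    refine Finset.sum_eq_zero fun d hd => ?_
    rw [Finset.mem_filter] at hd
    rw [(hl d hd.2).2, FreeGroup.norm_one]
    rfl
  have h00 : Φ 0 = 0 := by
    refine le_antisymm (ht ▸ hmono t le_rfl) ?_
    rw [hΦ]
    exact Finset.sum_nonneg fun d _ => by positivity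
  have helt : ∀ d : D k, S.src d ∈ U → S.elt d = 1 := by
    intro d hd
    rw [hΦ] at h00
    have h1 := (Finset.sum_eq_zero_iff_of_nonneg (fun d _ => by positivity)).1 h00 d (by
      rw [Finset.mem_filter]
      exact ⟨Finset.mem_univ _, hd⟩)
    have h2 : (S.e (pos h 0) d).norm = 0 := by exact_mod_cast h1
    rw [FreeGroup.norm_eq_zero, pos_zero] at h2
    simpa [Str.e] using h2
  obtain ⟨α, hα, h1⟩ := hnrm U hU (fun d hd => ⟨(hl d hd).1, helt d hd⟩)
  apply hmov α hα
  unfold nx
  rw [h1]
  simp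

end Pool.Agent.Helper497.SE
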