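import Pool.Agent.Helper497.SE.Base
import Pool.Agent.Helper497.SE.PosFacts
import Pool.Agent.Helper497.SE.CFacts
import Pool.Agent.Helper497.SE.Hull

set_option autoImplicit false

namespace Pool.Agent.Helper497.SE

open Finset

variable {N k p : ℕ}





theorem free_sum (S : Str N k p) (allow : Fin p → Finset (Z N)) (hmin : S.Min allow)
    (hNP : S.NP allow) (h : Fin p → FreeGroup (Fin N)) (ha : Allowed allow h) (hnrm : S.Nrm h)
    (t : ℕ) (U : Finset (Fin p)) (hU : U.Nonempty) (x0 : Z N) (huni : ∀ α ∈ U, nx h t α = some x0)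
    (hcl : ∀ d, S.src d ∈ U → S.e (pos h t) d = 1 → nx h t (S.tgt d) = nx h t (S.src d) →
      S.tgt d ∈ U)
    (hpos : ∀ d, S.src d ∈ U → 0 ≤ S.C h t d) :
    2 ≤ ∑ d ∈ univ.filter (fun d : D k => S.src d ∈ U), S.C h t d := by
  have hne : ∀ α ∈ U, nx h t α ≠ none := fun α hα => by rw [huni α hα]; simp
  have h0 : (S.leave (pos h t) U).card ≠ 0 := hull S allow hmin h ha hnrm t U hU hne
  have h1 : (S.leave (pos h t) U).card ≠ 1 :=
    hNP (pos h t) (pos_allowed ha t) U ⟨x0, fun α hα => nx_allowed ha (huni α hα)⟩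
  have e1 : ∑ d ∈ univ.filter (fun d : D k => S.src d ∈ U), S.C h t d =
      ∑ d ∈ univ.filter (fun d : D k => S.src d ∈ U), (if d ∈ S.leave (pos h t) U then (1 : ℤ) else 0) := by
    apply Finset.sum_congr rfl
    intro d hd
    have hd' : S.src d ∈ U := (Finset.mem_filter.1 hd).2
    by_cases hF : d ∈ S.leave (pos h t) U
    · rw [if_pos hF]
      have hF' := (Finset.mem_filter.1 hF).2.2
      rcases C_cases S h t d with hc | hc | hc
      · have := hpos d hd'
        omega
      · exfalso
        have h2 := (C_eq_zero S h t d (hne _ hd')).1 hc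
        exact hF' ⟨hcl d hd' h2.1 h2.2, h2.1⟩
      · exact hc
    · rw [if_neg hF]
      have hF' : S.tgt d ∈ U ∧ S.e (pos h t) d = 1 := by
        by_contra hcon
        exact hF (Finset.mem_filter.2 ⟨Finset.mem_univ _, hd', hcon⟩)
      exact (C_eq_zero S h t d (hne _ hd')).2 ⟨hF'.2, by rw [huni _ hF'.1, huni _ hd']⟩
  have e2 : (univ.filter (fun d : D k => S.src d ∈ U)).filter (fun d => d ∈ S.leave (pos h t) U) =
      S.leave (pos h t) U := by
    ext d
    simp only [Finset.mem_filter, Finset.mem_univ, true_and]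
    constructor
    · exact fun hh => hh.2
    · exact fun hh => ⟨(Finset.mem_filter.1 hh).2.1, hh⟩
  rw [e1, Finset.sum_ite, Finset.sum_const_zero, add_zero, Finset.sum_const, e2]
  simp only [nsmul_eq_mul, mul_one]
  have : 2 ≤ (S.leave (pos h t) U).card := by omega
  exact_mod_cast this

end Pool.Agent.Helper497.SE
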