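import Pool.Agent.Helper497.SE.Base
import Pool.Agent.Helper497.SE.RvFacts
import Pool.Agent.Helper497.SE.PosFacts
import Pool.Agent.Helper497.SE.CFacts
import Pool.Agent.Helper497.SE.Closed
import Pool.Agent.Helper497.SE.FreeSum
import Pool.Agent.Helper497.SE.CpFacts
import Pool.Agent.Helper497.SE.RuleInr
import Pool.Agent.Helper497.SE.Blocks

set_option autoImplicit false

namespace Pool.Agent.Helper497.SE

open Finset

variable {N k p : ℕ}











theorem two_R (S : Str N k p) (allow : Fin p → Finset (Z N)) (hmin : S.Min allow)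
    (hNP : S.NP allow) (h : Fin p → FreeGroup (Fin N)) (ha : Allowed allow h) (hnrm : S.Nrm h)
    (dd : Fin p → Rl k p) (hdd : S.Good h dd) (t : ℕ) :
    2 * ((Rs (S.rule dd h t)).card : ℤ) ≤ ∑ d : D k, S.C h t d := by
  have hR : ∀ α ∈ Rs (S.rule dd h t), S.rule dd h t α = some (Sum.inr α) := fun α hα =>
    (Finset.mem_filter.mp hα).2
  have hMv : ∀ α, α ∈ Mv h t ↔ nx h t α ≠ none := fun α => by
    unfold Mv
    rw [Finset.mem_filter]
    exact ⟨fun h => h.2, fun h => ⟨Finset.mem_univ _, h⟩⟩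
  refine blocks S.src (S.C h t) (Mv h t) (Rs (S.rule dd h t)) (S.Cp h t) ?_ ?_ ?_ ?_ ?_
  · intro d hd
    apply C_stop
    by_contra hne
    exact hd ((hMv _).2 hne)
  · intro α hα β hβ
    rw [hMv, Cp_nx S h t α β hβ]
    exact (rule_inr S h dd hdd t α α (hR α hα)).1
  · intro α hα β hβ hne
    rw [Finset.disjoint_left]
    intro γ hγ hγ'
    have e1 := Cp_eq S h t α γ hγ
    have e2 := Cp_eq S h t β γ hγ'
    have e3 : S.Cp h t α = S.Cp h t β := e1.symm.trans e2
    have h1 := (rule_inr S h dd hdd t α α (hR α hα)).2.2.1 β (by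
      rw [e3]; exact Cp_self S h t β)
    have h2 := (rule_inr S h dd hdd t β β (hR β hβ)).2.2.1 α (by
      rw [← e3]; exact Cp_self S h t α)
    exact hne (le_antisymm h1 h2)
  · intro α hα
    obtain ⟨hmv, -, -, hng, -⟩ := rule_inr S h dd hdd t α α (hR α hα)
    obtain ⟨x0, hx0⟩ := Option.ne_none_iff_exists'.mp hmv
    refine free_sum S allow hmin hNP h ha hnrm t (S.Cp h t α) ⟨α, Cp_self S h t α⟩ x0 ?_ ?_ ?_
    · intro β hβ
      rw [Cp_nx S h t α β hβ, hx0]
    · intro d hd he hx
      exact Cp_closed S h t α hmv hng d hd he hx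
    · intro d hd
      rcases C_cases S h t d with hc | hc | hc
      · exfalso
        apply hng _ hd
        unfold Str.Ng
        rw [Finset.mem_filter]
        refine ⟨Finset.mem_univ _, ?_, d, rfl, hc⟩
        rw [Cp_nx S h t α _ hd]
        exact hmv
      · rw [hc]
      · rw [hc]; norm_num
  · refine closed_sum S allow hmin h ha t _ ?_ ?_
    · intro α hα
      exact (hMv α).1 (Finset.mem_sdiff.mp hα).1
    · intro d hd he hx
      obtain ⟨hd1, hd2⟩ := Finset.mem_sdiff.mp hd
      rw [Finset.mem_sdiff]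
      refine ⟨?_, ?_⟩
      · rw [hMv, hx]
        exact (hMv _).1 hd1
      · intro hb
        apply hd2
        rw [Finset.mem_biUnion] at hb ⊢
        obtain ⟨α, hα, hα'⟩ := hb
        obtain ⟨hmv, -, -, hng, -⟩ := rule_inr S h dd hdd t α α (hR α hα)
        refine ⟨α, hα, ?_⟩
        have := Cp_closed S h t α hmv hng (rv d) (by rw [src_rv]; exact hα')
          (by rw [e_rv, he, inv_one]) (by rw [tgt_rv, src_rv, hx])
        rwa [tgt_rv] at this

end Pool.Agent.Helper497.SE
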