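import Pool.Agent.Helper497.SE.Base
import Pool.Agent.Helper497.SE.PosFacts
import Pool.Agent.Helper497.SE.EStep
import Pool.Agent.Helper497.SE.TwoR

set_option autoImplicit false

namespace Pool.Agent.Helper497.SE

open Finset

variable {N k p : ℕ}





theorem sum_R (S : Str N k p) (allow : Fin p → Finset (Z N)) (hmin : S.Min allow)
    (hNP : S.NP allow) (h : Fin p → FreeGroup (Fin N)) (ha : Allowed allow h) (hnrm : S.Nrm h)
    (dd : Fin p → Rl k p) (hdd : S.Good h dd) (T : ℕ) (hT : ∀ α, (h α).norm ≤ T) :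
    S.f (fun _ => 1) + 2 * ∑ t ∈ range T, (Rs (S.rule dd h t)).card ≤ S.f h := by
  have key : ∀ m : ℕ, S.f (pos h 0) + 2 * ∑ t ∈ range m, (Rs (S.rule dd h t)).card
      ≤ S.f (pos h m) := by
    intro m
    induction m with
    | zero => simp
    | succ m ih =>
      have h1 := f_step S h m
      have h2 := two_R S allow hmin hNP h ha hnrm dd hdd m
      have h3 : S.f (pos h m) + 2 * (Rs (S.rule dd h m)).card ≤ S.f (pos h (m + 1)) := by
        have h4 : (S.f (pos h m) : ℤ) + 2 * ((Rs (S.rule dd h m)).card : ℤ)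
            ≤ (S.f (pos h (m + 1)) : ℤ) := by linarith
        exact_mod_cast h4
      rw [Finset.sum_range_succ]
      omega
  have h5 := key T
  rw [pos_zero, pos_eq h T hT] at h5
  exact h5

end Pool.Agent.Helper497.SE
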