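import Pool.Agent.Helper497.SE.Base
import Pool.Agent.Helper497.SE.RuleInr
import Pool.Agent.Helper497.SE.RuleDec
import Pool.Agent.Helper497.SE.GoodEx
import Pool.Agent.Helper497.SE.Psi
import Pool.Agent.Helper497.SE.SumR
import Pool.Agent.Helper497.SE.Codes
import Pool.Agent.Helper497.SE.Fixed

set_option autoImplicit false

namespace Pool.Agent.Helper497.SE

open Finset

variable {N k p : ℕ}









theorem se_fin (S : Str N k p) (allow : Fin p → Finset (Z N)) (q : ℕ) (hq1 : 1 ≤ q)
    (hinv : ∀ α, ∀ x ∈ allow α, inv x ∈ allow α) (hq : ∀ α, (allow α).card ≤ q + 1)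
    (hmin : S.Min allow) (hNP : S.NP allow) (T Δ : ℕ) (H : Finset (Fin p → FreeGroup (Fin N)))
    (hall : ∀ h ∈ H, Allowed allow h) (hT : ∀ h ∈ H, ∀ α, (h α).norm ≤ T) (hnrm : ∀ h ∈ H, S.Nrm h)
    (hΔ : ∀ h ∈ H, S.f h ≤ S.f (fun _ => 1) + Δ) :
    H.card ≤ ((T + 1) * (2 * k + p + 1) ^ p) ^ ((p * p + 1) * (2 * p) + p * p + 1) *
      (2 ^ p * q ^ (Δ / 2)) := by
  classical
  choose dd hdd using good_exists (N := N) (k := k) (p := p) S
  let code : (Fin p → FreeGroup (Fin N)) → (Fin T → (Fin p → Rl k p)) :=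
    fun h t => S.rule (dd h) h t
  have hne : Nonempty (Fin p → Rl k p) := ⟨fun _ => none⟩
  have hF : (H.image code).card ≤ ((T + 1) * Fintype.card (Fin p → Rl k p)) ^
      ((p * p + 1) * (2 * p) + p * p + 1) := by
    apply count_codes T ((p * p + 1) * (2 * p) + p * p) (H.image code)
    intro c hc
    obtain ⟨h, hh, rfl⟩ := Finset.mem_image.1 hc
    exact ⟨S.Psi h, Psi_anti S h, Psi_zero S h, fun i j hij => Psi_rule S h (dd h) i j hij⟩
  have hcard : Fintype.card (Fin p → Rl k p) = (2 * k + p + 1) ^ p := by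
    rw [Fintype.card_fun, Fintype.card_fin, Fintype.card_option, Fintype.card_sum,
      Fintype.card_prod, Fintype.card_fin, Fintype.card_fin, Fintype.card_bool]
    ring
  rw [hcard] at hF
  have hfib : ∀ c ∈ H.image code, (H.filter (fun h => code h = c)).card ≤ 2 ^ p * q ^ (Δ / 2) := by
    intro c hc
    obtain ⟨h0, hh0, rfl⟩ := Finset.mem_image.1 hc
    have hrule : ∀ h ∈ H.filter (fun h => code h = code h0), ∀ t < T,
        S.rule (dd h) h t = S.rule (dd h0) h0 t := by
      intro h hh t ht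
      have h1 := (Finset.mem_filter.1 hh).2
      exact congrFun h1 ⟨t, ht⟩
    have h2 := count_fixed S allow q hq1 hinv hq T (fun t => S.rule (dd h0) h0 t)
      (fun t _ α β hr => (rule_inr S h0 (dd h0) (hdd h0) t α β hr).2.2.2.2)
      (H.filter (fun h => code h = code h0))
      (fun h hh => hall h (Finset.mem_filter.1 hh).1)
      (fun h hh => hT h (Finset.mem_filter.1 hh).1)
      (fun h hh t ht α => by
        have h3 := rule_dec S h (dd h) (hdd h) t α
        rw [hrule h hh t ht] at h3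
        exact h3)
      (fun h hh t ht β hβ => by
        have h4 : S.rule (dd h0) h0 t β = some (Sum.inr β) := (Finset.mem_filter.1 hβ).2
        rw [← hrule h hh t ht] at h4
        exact (rule_inr S h (dd h) (hdd h) t β β h4).1)
    refine h2.trans (Nat.mul_le_mul_left _ (Nat.pow_le_pow_right hq1 ?_))
    have h5 := sum_R S allow hmin hNP h0 (hall h0 hh0) (hnrm h0 hh0) (dd h0) (hdd h0) T (hT h0 hh0)
    have h6 := hΔ h0 hh0
    omega
  have h7 := Finset.card_le_mul_card_image H (2 ^ p * q ^ (Δ / 2)) hfib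
  calc H.card ≤ 2 ^ p * q ^ (Δ / 2) * (H.image code).card := h7
    _ ≤ 2 ^ p * q ^ (Δ / 2) * (((T + 1) * (2 * k + p + 1) ^ p) ^
        ((p * p + 1) * (2 * p) + p * p + 1)) := Nat.mul_le_mul_left _ hF
    _ = _ := Nat.mul_comm _ _

end Pool.Agent.Helper497.SE
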